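import Pool.Agent.W13.LM.Digits
import Pool.Agent.W13.LM.Scale

/-! # Interval exchanges with the symmetric permutation: palindromes in the code of dense orbits -/

set_option autoImplicit false

namespace Pool.Agent.R329.IET

/-- `T` exchanges the intervals `[a j, a (j + 1))`, `j < r`, by reversing their order. -/
structure Sym (r : ℕ) (a : ℕ → ℝ) (T : ℝ → ℝ) : Prop where
  zero : a 0 = 0
  last : a r = 1
  lt : ∀ j, j < r → a j < a (j + 1)
  map : ∀ j, j < r → ∀ x, a j ≤ x → x < a (j + 1) → T x = x + 1 - a j - a (j + 1)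

variable {r : ℕ} {a : ℕ → ℝ} {T : ℝ → ℝ}

lemma Sym.mono (S : Sym r a T) {i j : ℕ} (hij : i ≤ j) (hj : j ≤ r) : a i ≤ a j := by
  induction j, hij using Nat.le_induction with
  | base => exact le_rfl
  | succ j hij ih => exact (ih (by omega)).trans (S.lt j (by omega)).le

lemma Sym.exists_idx (S : Sym r a T) {x : ℝ} (h0 : 0 ≤ x) (h1 : x < 1) :
    ∃ j, j < r ∧ a j ≤ x ∧ x < a (j + 1) := by
  classical
  have hex : ∃ j, x < a (j + 1) ∧ j < r := by
    by_contra hcon
    push Not at hcon
    have hr : 0 < r := by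
      rcases Nat.eq_zero_or_pos r with h | h
      · have h2 := S.zero
        have h3 := S.last
        rw [h] at h3
        rw [h2] at h3
        norm_num at h3
      · exact h
    have := hcon (r - 1) (by rw [show r - 1 + 1 = r by omega, S.last]; exact h1)
    omega
  refine ⟨Nat.find hex, (Nat.find_spec hex).2, ?_, (Nat.find_spec hex).1⟩
  rcases Nat.eq_zero_or_pos (Nat.find hex) with h | h
  · rw [h, S.zero]; exact h0
  · by_contra hcon
    push Not at hcon
    have hlt := (Nat.find_spec hex).2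
    refine Nat.find_min hex (show Nat.find hex - 1 < Nat.find hex by omega) ⟨?_, by omega⟩
    rw [show Nat.find hex - 1 + 1 = Nat.find hex by omega]
    exact hcon

lemma Sym.maps (S : Sym r a T) {x : ℝ} (h0 : 0 ≤ x) (h1 : x < 1) : 0 ≤ T x ∧ T x < 1 := by
  obtain ⟨j, hj, h2, h3⟩ := S.exists_idx h0 h1
  rw [S.map j hj x h2 h3]
  have h4 := S.mono (i := j + 1) (j := r) (by omega) le_rfl
  have h5 := S.mono (i := 0) (j := j) (by omega) hj.le
  rw [S.last] at h4
  rw [S.zero] at h5
  constructor <;> linarith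

lemma Sym.iter (S : Sym r a T) {x : ℝ} (h0 : 0 ≤ x) (h1 : x < 1) (n : ℕ) :
    0 ≤ T^[n] x ∧ T^[n] x < 1 := by
  induction n with
  | zero => exact ⟨h0, h1⟩
  | succ n ih => rw [Function.iterate_succ_apply']; exact S.maps ih.1 ih.2

lemma Sym.inj (S : Sym r a T) {x y : ℝ} (h0 : 0 ≤ x) (h1 : x < 1) (h2 : 0 ≤ y) (h3 : y < 1)
    (h : T x = T y) : x = y := by
  obtain ⟨i, hi, h4, h5⟩ := S.exists_idx h0 h1
  obtain ⟨j, hj, h6, h7⟩ := S.exists_idx h2 h3
  rw [S.map i hi x h4 h5, S.map j hj y h6 h7] at h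
  rcases lt_trichotomy i j with hij | hij | hij
  · have := S.mono (i := i + 1) (j := j) (by omega) (by omega)
    linarith
  · subst hij
    linarith
  · have := S.mono (i := j + 1) (j := i) (by omega) (by omega)
    linarith

lemma Sym.inj_iter (S : Sym r a T) {x y : ℝ} (h0 : 0 ≤ x) (h1 : x < 1) (h2 : 0 ≤ y) (h3 : y < 1)
    (n : ℕ) (h : T^[n] x = T^[n] y) : x = y := by
  induction n with
  | zero => exact h
  | succ n ih =>
    apply ih
    rw [Function.iterate_succ_apply', Function.iterate_succ_apply'] at h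
    exact S.inj (S.iter h0 h1 n).1 (S.iter h0 h1 n).2 (S.iter h2 h3 n).1 (S.iter h2 h3 n).2 h

/-- `x` is an interior point of one of the intervals -/
def Inn (r : ℕ) (a : ℕ → ℝ) (x : ℝ) : Prop := ∃ j, j < r ∧ a j < x ∧ x < a (j + 1)

/-- the reflection in the intervals -/
lemma Sym.fold (S : Sym r a T) {x : ℝ} (hx : Inn r a x) : T (1 - T x) = 1 - x := by
  obtain ⟨j, hj, h1, h2⟩ := hx
  rw [S.map j hj x h1.le h2, S.map j hj _ (by linarith) (by linarith)]
  ring

/-- the letters of `F` depend only on the interval -/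
def Letters (r : ℕ) (a : ℕ → ℝ) (F : ℝ → ℤ × ℤ) : Prop :=
  ∀ j, j < r → ∀ x y, a j ≤ x → x < a (j + 1) → a j ≤ y → y < a (j + 1) → F x = F y

lemma Sym.refl_inn (S : Sym r a T) {x : ℝ} (hx : Inn r a x) : Inn r a (1 - T x) := by
  obtain ⟨j, hj, h1, h2⟩ := hx
  refine ⟨j, hj, ?_, ?_⟩ <;> rw [S.map j hj x h1.le h2] <;> linarith

lemma Sym.refl_letter (S : Sym r a T) {F : ℝ → ℤ × ℤ} (hF : Letters r a F) {x : ℝ}
    (hx : Inn r a x) : F (1 - T x) = F x := by
  obtain ⟨j, hj, h1, h2⟩ := hx
  refine hF j hj _ _ ?_ ?_ h1.le h2 <;> rw [S.map j hj x h1.le h2] <;> linarith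

/-- local constancy along interior orbits -/
lemma Sym.local (S : Sym r a T) {F : ℝ → ℤ × ℤ} (hF : Letters r a F) (p : ℝ) (N : ℕ)
    (hp : ∀ i, i ≤ N → Inn r a (T^[i] p)) :
    ∃ δ : ℝ, 0 < δ ∧ ∀ t : ℝ, |t| < δ → ∀ i, i ≤ N →
      T^[i] (p + t) = T^[i] p + t ∧ F (T^[i] (p + t)) = F (T^[i] p) ∧ T (T^[i] p + t) = T (T^[i] p) + t := by
  have hloc : ∀ z, Inn r a z → ∃ δ : ℝ, 0 < δ ∧ ∀ t : ℝ, |t| < δ →
      T (z + t) = T z + t ∧ F (z + t) = F z := by
    rintro z ⟨j, hj, h1, h2⟩
    refine ⟨min (z - a j) (a (j + 1) - z), lt_min (by linarith) (by linarith), fun t ht => ?_⟩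
    have h3 := lt_of_lt_of_le ht (min_le_left _ _)
    have h4 := lt_of_lt_of_le ht (min_le_right _ _)
    rw [abs_lt] at h3 h4
    constructor
    · rw [S.map j hj z h1.le h2, S.map j hj (z + t) (by linarith) (by linarith)]
      ring
    · exact hF j hj _ _ (by linarith) (by linarith) h1.le h2
  induction N with
  | zero =>
    obtain ⟨δ, hδ, h⟩ := hloc p (hp 0 le_rfl)
    refine ⟨δ, hδ, fun t ht i hi => ?_⟩
    obtain rfl : i = 0 := by omega
    exact ⟨rfl, (h t ht).2, (h t ht).1⟩
  | succ N ih =>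
    obtain ⟨δ₁, hδ₁, h₁⟩ := ih fun i hi => hp i (by omega)
    obtain ⟨δ₂, hδ₂, h₂⟩ := hloc _ (hp (N + 1) le_rfl)
    refine ⟨min δ₁ δ₂, lt_min hδ₁ hδ₂, fun t ht i hi => ?_⟩
    have h3 := lt_of_lt_of_le ht (min_le_left _ _)
    have h4 := lt_of_lt_of_le ht (min_le_right _ _)
    rcases Nat.lt_or_ge i (N + 1) with hiN | hiN
    · exact h₁ t h3 i (by omega)
    · obtain rfl : i = N + 1 := by omega
      have h5 := h₁ t h3 N le_rfl
      have h6 : T^[N + 1] (p + t) = T^[N + 1] p + t := by
        rw [Function.iterate_succ_apply', Function.iterate_succ_apply', h5.1, h5.2.2]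
      exact ⟨h6, by rw [h6]; exact (h₂ t h4).2, (h₂ t h4).1⟩

/-- the orbit of a symmetric point, folded -/
lemma Sym.folded (S : Sym r a T) (z : ℝ) (hz : 1 - T z = z) (n : ℕ)
    (hn : ∀ i, i ≤ n → Inn r a (T^[i] z)) (i : ℕ) (hi : i ≤ n) :
    T^[i] (1 - T^[n + 1] z) = 1 - T^[n - i + 1] z := by
  induction i with
  | zero => rfl
  | succ i ih =>
    rw [Function.iterate_succ_apply', ih (by omega)]
    rw [show n - i + 1 = (n - (i + 1) + 1) + 1 by omega, Function.iterate_succ_apply']
    exact S.fold (hn _ (by omega))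

lemma Sym.folded_zero (S : Sym r a T) (z : ℝ) (hz : 1 - T z = z) (n : ℕ)
    (hn : ∀ i, i ≤ n → Inn r a (T^[i] z)) : T^[n] (1 - T^[n + 1] z) = z := by
  rw [S.folded z hz n hn n le_rfl, Nat.sub_self, zero_add, Function.iterate_one, hz]

/-- the orbit of `y` is dense in `[0, 1]` -/
def DenseOrbit (T : ℝ → ℝ) (y : ℝ) : Prop :=
  ∀ u v : ℝ, 0 ≤ u → u < v → v ≤ 1 → ∃ k : ℕ, u < T^[k] y ∧ T^[k] y < v

lemma dense_pos {y : ℝ} (h : DenseOrbit T y) (M : ℕ) (u v : ℝ) (hu : 0 ≤ u) (huv : u < v)
    (hv : v ≤ 1) : ∃ k : ℕ, M ≤ k ∧ u < T^[k] y ∧ T^[k] y < v := by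
  -- avoid the first `M` points
  have key : ∀ M : ℕ, ∃ u' v' : ℝ, u ≤ u' ∧ u' < v' ∧ v' ≤ v ∧
      ∀ k, k < M → ¬ (u' < T^[k] y ∧ T^[k] y < v') := by
    intro M
    induction M with
    | zero => exact ⟨u, v, le_rfl, huv, le_rfl, fun k hk => absurd hk (by omega)⟩
    | succ M ih =>
      obtain ⟨u', v', h1, h2, h3, h4⟩ := ih
      by_cases hc : T^[M] y ≤ (u' + v') / 2
      · refine ⟨(u' + v') / 2, v', by linarith, by linarith, h3, fun k hk => ?_⟩
        rcases Nat.lt_or_ge k M with hkM | hkM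
        · rintro ⟨h5, h6⟩
          exact h4 k hkM ⟨by linarith, h6⟩
        · obtain rfl : k = M := by omega
          rintro ⟨h5, h6⟩
          linarith
      · push Not at hc
        refine ⟨u', (u' + v') / 2, h1, by linarith, by linarith, fun k hk => ?_⟩
        rcases Nat.lt_or_ge k M with hkM | hkM
        · rintro ⟨h5, h6⟩
          exact h4 k hkM ⟨h5, by linarith⟩
        · obtain rfl : k = M := by omega
          rintro ⟨h5, h6⟩
          linarith
  obtain ⟨u', v', h1, h2, h3, h4⟩ := key M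
  obtain ⟨k, hk1, hk2⟩ := h u' v' (by linarith) h2 (by linarith)
  refine ⟨k, ?_, by linarith, by linarith⟩
  by_contra hcon
  exact h4 k (by omega) ⟨hk1, hk2⟩

/-- there is a symmetric point whose orbit avoids the end points of the intervals -/
lemma Sym.exists_center (S : Sym r a T) (hr : 2 ≤ r) {y : ℝ} (hy : DenseOrbit T y) :
    ∃ z : ℝ, 1 - T z = z ∧ ∀ i, Inn r a (T^[i] z) := by
  classical
  by_contra hcon
  push Not at hcon
  -- the midpoints
  set m : ℕ → ℝ := fun j => (a j + a (j + 1)) / 2 with hm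
  have hmInn : ∀ j, j < r → a j < m j ∧ m j < a (j + 1) := by
    intro j hj
    have := S.lt j hj
    simp only [hm]
    constructor <;> linarith
  have hmsym : ∀ j, j < r → 1 - T (m j) = m j := by
    intro j hj
    have := hmInn j hj
    rw [S.map j hj _ this.1.le this.2]
    simp only [hm]
    ring
  have hm01 : ∀ j, j < r → 0 ≤ m j ∧ m j < 1 := by
    intro j hj
    have h1 := hmInn j hj
    have h2 := S.mono (i := 0) (j := j) (by omega) hj.le
    have h3 := S.mono (i := j + 1) (j := r) (by omega) le_rfl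
    rw [S.zero] at h2
    rw [S.last] at h3
    constructor <;> linarith
  have hex : ∀ j, j < r → ∃ i, ¬ Inn r a (T^[i] (m j)) := fun j hj => hcon (m j) (hmsym j hj)
  -- first exit times
  have hk : ∀ j, ∃ k, j < r → (¬ Inn r a (T^[k] (m j)) ∧ ∀ i, i < k → Inn r a (T^[i] (m j))) := by
    intro j
    by_cases hj : j < r
    · refine ⟨Nat.find (hex j hj), fun _ => ⟨Nat.find_spec (hex j hj), fun i hi => ?_⟩⟩
      have := Nat.find_min (hex j hj) hi
      push Not at this
      exact this
    · exact ⟨0, fun h => absurd h hj⟩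
  choose k hk using hk
  have hkpos : ∀ j, j < r → 0 < k j := by
    intro j hj
    rcases Nat.eq_zero_or_pos (k j) with h | h
    · exfalso
      apply (hk j hj).1
      rw [h]
      exact ⟨j, hj, hmInn j hj⟩
    · exact h
  -- the exit points are discontinuities
  have hd : ∀ j, ∃ i, j < r → (1 ≤ i ∧ i < r ∧ T^[k j] (m j) = a i) := by
    intro j
    by_cases hj : j < r
    · obtain ⟨i, hi, h1, h2⟩ := S.exists_idx (S.iter (hm01 j hj).1 (hm01 j hj).2 (k j)).1
        (S.iter (hm01 j hj).1 (hm01 j hj).2 (k j)).2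
      have h3 : T^[k j] (m j) = a i := by
        by_contra hne
        exact (hk j hj).1 ⟨i, hi, lt_of_le_of_ne h1 (Ne.symm hne), h2⟩
      refine ⟨i, fun _ => ⟨?_, hi, h3⟩⟩
      by_contra hi0
      obtain rfl : i = 0 := by omega
      rw [S.zero] at h3
      have h4 : k j = (k j - 1) + 1 := by have := hkpos j hj; omega
      rw [h4, Function.iterate_succ_apply'] at h3
      obtain ⟨l, hl, h5, h6⟩ := (hk j hj).2 (k j - 1) (by have := hkpos j hj; omega)
      rw [S.map l hl _ h5.le h6] at h3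
      have h7 := S.mono (i := l + 1) (j := r) (by omega) le_rfl
      rw [S.last] at h7
      linarith
    · exact ⟨0, fun h => absurd h hj⟩
  choose d hd using hd
  obtain ⟨j, hj, j', hj', hne, hdd⟩ := Finset.exists_ne_map_eq_of_card_lt_of_maps_to
    (s := Finset.range r) (t := Finset.Ico 1 r) (f := d) (by simp; omega) (by
      intro j hj
      have h1 := hd j (Finset.mem_range.1 hj)
      exact Finset.mem_coe.2 (Finset.mem_Ico.2 ⟨h1.1, h1.2.1⟩))
  rw [Finset.mem_range] at hj hj'
  -- wlog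
  have main : ∀ j j', j < r → j' < r → j ≠ j' → d j = d j' → k j' ≤ k j → False := by
    intro j j' hj hj' hne hdd hkk
    have e1 : T^[k j] (m j) = T^[k j'] (m j') := by
      rw [(hd j hj).2.2, (hd j' hj').2.2, hdd]
    set n := k j - k j' with hn
    have e2 : T^[n] (m j) = m j' := by
      refine S.inj_iter (S.iter (hm01 j hj).1 (hm01 j hj).2 n).1
        (S.iter (hm01 j hj).1 (hm01 j hj).2 n).2 (hm01 j' hj').1 (hm01 j' hj').2 (k j') ?_
      rw [← Function.iterate_add_apply, show k j' + n = k j by omega]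
      exact e1
    have hnpos : 0 < n := by
      rcases Nat.eq_zero_or_pos n with h | h
      · exfalso
        rw [h] at e2
        have e3 : m j = m j' := e2
        have h1 := hmInn j hj
        have h2 := hmInn j' hj'
        rcases Nat.lt_or_ge j j' with hlt | hge
        · have := S.mono (i := j + 1) (j := j') (by omega) hj'.le
          linarith
        · have := S.mono (i := j' + 1) (j := j) (by omega) hj.le
          linarith
      · exact h
    have hint : ∀ i, i ≤ n → Inn r a (T^[i] (m j)) := by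
      intro i hi
      apply (hk j hj).2
      have := hkpos j' hj'
      omega
    -- the orbit is periodic
    have e3 : 1 - T^[n + 1] (m j) = m j' := by
      rw [Function.iterate_succ_apply', e2, hmsym j' hj']
    have hfold := S.folded (m j) (hmsym j hj) n hint
    have hfz := S.folded_zero (m j) (hmsym j hj) n hint
    rw [e3] at hfold hfz
    have hint2 : ∀ i, i ≤ 2 * n → Inn r a (T^[i] (m j)) := by
      intro i hi
      rcases Nat.lt_or_ge i n with h | h
      · exact hint i h.le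
      · obtain ⟨l, rfl⟩ := Nat.exists_eq_add_of_le h
        rw [add_comm, Function.iterate_add_apply, e2, hfold l (by omega),
          Function.iterate_succ_apply']
        exact S.refl_inn (hint _ (by omega))
    have hper : T^[2 * n] (m j) = m j := by
      rw [two_mul, Function.iterate_add_apply, e2, hfz]
    obtain ⟨δ, hδ, hloc⟩ := S.local (F := fun _ => (0, 0)) (fun _ _ _ _ _ _ _ _ => rfl) (m j)
      (2 * n) hint2
    obtain ⟨t₁, -, ht1, ht2⟩ := dense_pos hy 0 (max 0 (m j - δ)) (min 1 (m j + δ))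
      (le_max_left _ _) (by
        have h1 := hmInn j hj
        have h2 := hm01 j hj
        have h3 := S.mono (i := 0) (j := j) (by omega) hj.le
        rw [S.zero] at h3
        rw [lt_min_iff, max_lt_iff, max_lt_iff]
        refine ⟨⟨by norm_num, by linarith⟩, by linarith, by linarith⟩) (min_le_left _ _)
    have h3 := lt_of_le_of_lt (le_max_right _ _) ht1
    have h4 := lt_of_lt_of_le ht2 (min_le_right _ _)
    set p := T^[t₁] y with hp
    have hpp : T^[2 * n] p = p := by
      have h5 := (hloc (p - m j) (by rw [abs_lt]; constructor <;> linarith) (2 * n) le_rfl).1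
      rw [hper] at h5
      rw [show m j + (p - m j) = p by ring] at h5
      exact h5
    -- the orbit of `y` is finite
    have hfin : ∀ K : ℕ, ∃ K' : ℕ, K' < t₁ + 2 * n ∧ T^[K] y = T^[K'] y := by
      intro K
      induction K using Nat.strong_induction_on with
      | _ K ih =>
        rcases Nat.lt_or_ge K (t₁ + 2 * n) with h | h
        · exact ⟨K, h, rfl⟩
        · obtain ⟨K', h5, h6⟩ := ih (K - 2 * n) (by omega)
          refine ⟨K', h5, ?_⟩
          rw [← h6]
          rw [show K = (K - (t₁ + 2 * n)) + (2 * n + t₁) by omega, Function.iterate_add_apply,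
            Function.iterate_add_apply, ← hp, hpp, hp, ← Function.iterate_add_apply]
          congr 1
          omega
    obtain ⟨K, hK, hK1, hK2⟩ := dense_pos hy 0 0 1 le_rfl one_pos le_rfl
    -- an interval without points of the orbit
    have hfs : (Set.range fun i : Fin (t₁ + 2 * n) => T^[i] y).Finite := Set.finite_range _
    have hinf : (Set.Ioo (0 : ℝ) 1).Infinite := Set.Ioo_infinite one_pos
    obtain ⟨w, hw, hwn⟩ := hinf.exists_notMem_finite hfs
    have hop : IsOpen (Set.range fun i : Fin (t₁ + 2 * n) => T^[i] y)ᶜ := hfs.isClosed.isOpen_compl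
    obtain ⟨η, hη, hball⟩ := Metric.isOpen_iff.1 hop w hwn
    obtain ⟨K, hK1, hK2⟩ := hy (max 0 (w - η)) (min 1 (w + η)) (le_max_left _ _) (by
      rw [lt_min_iff, max_lt_iff, max_lt_iff]
      exact ⟨⟨by norm_num, by linarith [hw.2]⟩, by linarith [hw.1], by linarith⟩) (min_le_left _ _)
    obtain ⟨K', hK', hKK⟩ := hfin K
    have h5 : T^[K] y ∈ Metric.ball w η := by
      rw [Metric.mem_ball, Real.dist_eq, abs_lt]
      constructor
      · linarith [lt_of_le_of_lt (le_max_right _ _) hK1]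
      · linarith [lt_of_lt_of_le hK2 (min_le_right _ _)]
    exact hball h5 ⟨⟨K', hK'⟩, hKK.symm⟩
  rcases le_total (k j') (k j) with h | h
  · exact main j j' hj hj' hne hdd h
  · exact main j' j hj' hj hne.symm hdd.symm h

/-- **Palindromes.** -/
theorem Sym.palindrome (S : Sym r a T) (hr : 2 ≤ r) {F : ℝ → ℤ × ℤ} (hF : Letters r a F) {y : ℝ}
    (hy : DenseOrbit T y) (K : ℕ) : ∃ c : ℕ, K + 1 ≤ c ∧ ∀ i, i ≤ K →
      F (T^[c + i] y) = F (T^[c - i] y) := by
  obtain ⟨z, hz, hint⟩ := S.exists_center hr hy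
  have hfold := S.folded z hz K fun i _ => hint i
  have hfz := S.folded_zero z hz K fun i _ => hint i
  set w := 1 - T^[K + 1] z with hw
  have hint2 : ∀ i, i ≤ 2 * K → Inn r a (T^[i] w) := by
    intro i hi
    rcases Nat.lt_or_ge i K with h | h
    · rw [hfold i h.le, Function.iterate_succ_apply']
      exact S.refl_inn (hint _)
    · obtain ⟨l, rfl⟩ := Nat.exists_eq_add_of_le h
      rw [add_comm, Function.iterate_add_apply, hfz]
      exact hint l
  obtain ⟨δ, hδ, hloc⟩ := S.local hF w (2 * K) hint2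
  have hwI := hint2 0 (by omega)
  obtain ⟨j, hj, hj1, hj2⟩ := hwI
  rw [Function.iterate_zero_apply] at hj1 hj2
  have h01 := S.mono (i := 0) (j := j) (by omega) hj.le
  have h11 := S.mono (i := j + 1) (j := r) (by omega) le_rfl
  rw [S.zero] at h01
  rw [S.last] at h11
  obtain ⟨t₁, ht0, ht1, ht2⟩ := dense_pos hy 1 (max 0 (w - δ)) (min 1 (w + δ))
    (le_max_left _ _) (by
      rw [lt_min_iff, max_lt_iff, max_lt_iff]
      refine ⟨⟨by norm_num, by linarith⟩, by linarith, by linarith⟩) (min_le_left _ _)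
  have h3 := lt_of_le_of_lt (le_max_right _ _) ht1
  have h4 := lt_of_lt_of_le ht2 (min_le_right _ _)
  have hl : ∀ i, i ≤ 2 * K → F (T^[t₁ + i] y) = F (T^[i] w) := by
    intro i hi
    have h5 := (hloc (T^[t₁] y - w) (by rw [abs_lt]; constructor <;> linarith) i hi).2.1
    rw [show w + (T^[t₁] y - w) = T^[t₁] y by ring, ← Function.iterate_add_apply] at h5
    rw [add_comm]
    exact h5
  refine ⟨t₁ + K, by omega, fun i hi => ?_⟩
  rw [show t₁ + K + i = t₁ + (K + i) by ring, hl _ (by omega),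
    show t₁ + K - i = t₁ + (K - i) by omega, hl _ (by omega)]
  rw [show K + i = i + K by ring, Function.iterate_add_apply, hfz, hfold (K - i) (by omega),
    show K - (K - i) + 1 = i + 1 by omega, Function.iterate_succ_apply']
  exact (S.refl_letter hF (hint i)).symm

open Pool.Agent.W13.LM in
theorem Sym.lc (S : Sym r a T) (hr : 2 ≤ r) {F : ℝ → ℤ × ℤ} (hF : Letters r a F) {y : ℝ}
    (hy0 : 0 ≤ y) (hy1 : y < 1) (hy : DenseOrbit T y) {α : ℝ} {a₀ : ℤ} {b q x : ℕ → ℤ} {D : ℕ → ℝ}
    (E : Exp α a₀ b q D) (hcode : ∀ k, (b k, x k) = F (T^[k] y)) :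
    LC α (∑' k, (x k : ℝ) * D k) := by
  -- the digits are bounded
  have hbd : ∃ B : ℝ, ∀ k, |(x k : ℝ)| ≤ B := by
    refine ⟨∑ j ∈ Finset.range r, |((F (a j)).2 : ℝ)|, fun k => ?_⟩
    obtain ⟨j, hj, h1, h2⟩ := S.exists_idx (S.iter hy0 hy1 k).1 (S.iter hy0 hy1 k).2
    have h3 := hF j hj _ (a j) h1 h2 le_rfl (S.lt j hj)
    have h4 : x k = (F (a j)).2 := by rw [← h3, ← hcode k]
    rw [h4]
    exact Finset.single_le_sum (f := fun j => |((F (a j)).2 : ℝ)|) (fun _ _ => abs_nonneg _)
      (Finset.mem_range.2 hj)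
  obtain ⟨B, hB⟩ := hbd
  refine mirror_digits E x B hB fun K => ?_
  obtain ⟨c, hc, hpal⟩ := S.palindrome hr hF hy K
  refine ⟨2 * c - 2, 1, by omega, Or.inl rfl, fun i j hij h1 h2 => ?_⟩
  have key : ∀ l, l ≤ K → b (c + l) = b (c - l) ∧ x (c + l) = x (c - l) := by
    intro l hl
    have h3 := hpal l hl
    rw [← hcode, ← hcode] at h3
    exact ⟨congrArg Prod.fst h3, congrArg Prod.snd h3⟩
  rw [one_mul]
  rcases le_total i j with hle | hle
  · have h3 := key (j + 1 - c) (by omega)
    rw [show c + (j + 1 - c) = j + 1 by omega, show c - (j + 1 - c) = i + 1 by omega] at h3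
    exact ⟨h3.1.symm, h3.2.symm⟩
  · have h3 := key (i + 1 - c) (by omega)
    rw [show c + (i + 1 - c) = i + 1 by omega, show c - (i + 1 - c) = j + 1 by omega] at h3
    exact h3

end Pool.Agent.R329.IET
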