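import Mathlib
import Pool.Agent.H380R2.CodeCF
import Pool.Agent.H380R2.CodeDigits
import Pool.Agent.H389R2.LC.Cx

/-! # Littlewood's conjecture for coded pairs: periodic blocks -/

set_option autoImplicit false

open MeasureTheory

namespace Pool.Agent.R329.LitCodes

open Pool.Agent.H380R2.LC

/-- Littlewood's conjecture for the pair `(α, β)` (the form of the frozen statement). -/
def Littlewood (α β : ℝ) : Prop :=
  ∀ ε : ℝ, 0 < ε → ∀ N : ℕ, ∃ q : ℕ, N ≤ q ∧ 0 < q ∧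
    (q : ℝ) * |(q : ℝ) * α - (round ((q : ℝ) * α) : ℝ)|
      * |(q : ℝ) * β - (round ((q : ℝ) * β) : ℝ)| < ε

/-- the sign change of the second component -/
def tw (σ : ℤ) (p : ℤ × ℤ) : ℤ × ℤ := (p.1, σ * p.2)

/-- periodic blocks in the regular continued fraction code -/
theorem regular (α β : ℝ) (hα : Irrational α) (x : ℕ → ℤ) (X : ℝ) (hX : ∀ k, |(x k : ℝ)| ≤ X)
    (hβ : HasSum (fun k => (x k : ℝ) * (den α k * α - num α k)) β) (w : ℕ → ℤ × ℤ)
    (hw : ∀ k, (pq α (k + 1), x (k + 1)) = w k)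
    (h : ∀ s : ℕ, ∃ (r u : ℕ) (σ : ℤ), 1 ≤ r ∧ (σ = 1 ∨ σ = -1) ∧
      ∀ k, k < 2 * r + s → w (u + k + r) = tw σ (w (u + k))) : Littlewood α β := by
  have hw' : ∀ k, pq α (k + 1) = (w k).1 ∧ x (k + 1) = (w k).2 := fun k => by
    rw [← hw k]; exact ⟨rfl, rfl⟩
  intro ε hε N
  obtain ⟨t₁, ht₁⟩ := pow_unbounded_of_one_lt (32 * (4 * X) / ε) (by norm_num : (1 : ℝ) < 2)
  set t : ℕ := t₁ + N with ht
  obtain ⟨r, u, σ, hr, hσ, hper⟩ := h (4 * t + 2)
  obtain ⟨q, hq1, hq2⟩ := one_denominator hα (4 * X) (nn α x) (digit_bound hα x X hX hβ) r u t hr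
    ((-1) ^ r * σ) (by
      rcases neg_one_pow_eq_or ℤ r with h1 | h1 <;> rcases hσ with rfl | rfl <;> simp [h1])
    (by
      intro k h1 h2
      have h3 := hper (k - u) (by omega)
      rw [show u + (k - u) = k by omega] at h3
      have h4 := congrArg Prod.fst h3
      have h5 := congrArg Prod.snd h3
      simp only [tw] at h4 h5
      rw [code_nn, code_nn, (hw' (k + r)).1, (hw' (k + r)).2, (hw' k).1, (hw' k).2]
      exact ⟨h4, by rw [h5]; ring⟩)
  have h2t : N < 2 ^ t := lt_of_lt_of_le (Nat.lt_two_pow_self) (Nat.pow_le_pow_right (by norm_num)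
    (by omega : N ≤ t))
  refine ⟨q, by omega, by omega, ?_⟩
  change prod α β q < ε
  have h3 : (2 : ℝ) ^ t₁ ≤ 2 ^ t := pow_le_pow_right₀ (by norm_num) (by omega)
  have h4 : 32 * (4 * X) < ε * 2 ^ t := by
    rw [div_lt_iff₀ hε] at ht₁
    nlinarith
  have h5 : (0 : ℝ) < 2 ^ t := by positivity
  by_contra hcon
  push Not at hcon
  have : 2 ^ t * ε ≤ 2 ^ t * prod α β q := mul_le_mul_of_nonneg_left hcon h5.le
  linarith

/-- repetitions in expansions in powers of a quadratic unit -/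
theorem quadratic (t : ℤ) (ε : ℝ) (ht : 3 ≤ t) (h1 : 1 < ε) (hq : ε ^ 2 - t * ε + 1 = 0)
    (a b : ℚ) (α : ℝ) (hα : α = a + b * ε) (d : ℕ → ℤ) (B : ℤ) (hB : ∀ k, |d k| ≤ B) (β : ℝ)
    (hβ : β = ∑' k : ℕ, (d k : ℝ) * ε⁻¹ ^ k)
    (h : ∀ K : ℕ, ∃ (s ℓ n : ℕ) (σ : ℤ), 0 < ℓ ∧ ℓ + K ≤ 2 * n ∧ (σ = 1 ∨ σ = -1) ∧
      ∀ k, k < n → d (s + k + ℓ) = σ * d (s + k)) : Littlewood α β := by
  have hb : H389R2.LC.Base t ε := ⟨ht, h1, hq⟩
  have hBr : ∀ k, |(d k : ℝ)| ≤ (B : ℝ) := by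
    intro k
    have := hB k
    exact_mod_cast this
  have hc : 0 < a.den * b.den := Nat.mul_pos a.den_pos b.den_pos
  have hαc : ((a.den * b.den : ℕ) : ℝ) * α
      = ((a.num * b.den : ℤ) : ℝ) + ((b.num * a.den : ℤ) : ℝ) * ε := by
    have ha : (a.den : ℝ) * (a : ℝ) = a.num := by
      have := Rat.mul_den_eq_num a
      have h2 : ((a * a.den : ℚ) : ℝ) = ((a.num : ℚ) : ℝ) := by rw [this]
      push_cast at h2
      linarith
    have hb' : (b.den : ℝ) * (b : ℝ) = b.num := by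
      have := Rat.mul_den_eq_num b
      have h2 : ((b * b.den : ℚ) : ℝ) = ((b.num : ℚ) : ℝ) := by rw [this]
      push_cast at h2
      linarith
    rw [hα]
    push_cast
    linear_combination (b.den : ℝ) * ha + (a.den : ℝ) * ε * hb'
  refine H389R2.LC.rep_LC hb α β _ _ _ hc hαc d B hBr hβ ?_
  intro K
  obtain ⟨s, ℓ, n, σ, h2, h3, h4, h5⟩ := h K
  refine ⟨s, ℓ, n, h2, h3, σ, h4, fun k hk1 hk2 => ?_⟩
  have := h5 (k - s) (by omega)
  rwa [show s + (k - s) = k by omega] at this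

/-- Littlewood's conjecture holds for all pairs whose regular continued fraction code is `w`:
`α` is irrational with the partial quotients `(w 0).1, (w 1).1, …` (besides the integer part) and
`β = ∑ x k (q_{k-1} α - p_{k-1})` with `x (k + 1) = (w k).2`. -/
def CodeLC (w : ℕ → ℤ × ℤ) : Prop :=
  ∀ (α β : ℝ) (x : ℕ → ℤ), Irrational α → (∀ k, (pq α (k + 1), x (k + 1)) = w k) →
    HasSum (fun k => (x k : ℝ) * (den α k * α - num α k)) β → Littlewood α β

/-- Littlewood's conjecture holds for all pairs `(α, β)`, where `α` is a real quadratic number,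
`ε > 1` a unit of norm one in its field and `β = ∑ d k ε^(-k)`. -/
def QuadLC (d : ℕ → ℤ) : Prop :=
  ∀ (t : ℤ) (ε : ℝ), 3 ≤ t → 1 < ε → ε ^ 2 - t * ε + 1 = 0 → ∀ (a b : ℚ) (α : ℝ), α = a + b * ε →
    ∀ β : ℝ, β = ∑' k : ℕ, (d k : ℝ) * ε⁻¹ ^ k → Littlewood α β

theorem codeLC_of_blocks {w : ℕ → ℤ × ℤ} (X : ℝ) (hX : ∀ k, |((w k).2 : ℝ)| ≤ X)
    (h : ∀ s : ℕ, ∃ (r u : ℕ) (σ : ℤ), 1 ≤ r ∧ (σ = 1 ∨ σ = -1) ∧
      ∀ k, k < 2 * r + s → w (u + k + r) = tw σ (w (u + k))) : CodeLC w := by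
  intro α β x hα hw hβ
  refine regular α β hα x (max X |(x 0 : ℝ)|) ?_ hβ w hw h
  intro k
  cases k with
  | zero => exact le_max_right _ _
  | succ k =>
    have h1 : x (k + 1) = (w k).2 := by rw [← hw k]
    rw [h1]
    exact (hX k).trans (le_max_left _ _)

theorem quadLC_of_blocks {d : ℕ → ℤ} (B : ℤ) (hB : ∀ k, |d k| ≤ B)
    (h : ∀ K : ℕ, ∃ (s ℓ n : ℕ) (σ : ℤ), 0 < ℓ ∧ ℓ + K ≤ 2 * n ∧ (σ = 1 ∨ σ = -1) ∧
      ∀ k, k < n → d (s + k + ℓ) = σ * d (s + k)) : QuadLC d := by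
  intro t ε ht h1 hq a b α hα β hβ
  exact quadratic t ε ht h1 hq a b α hα d B hB β hβ h

section ergodic

variable {Y : Type*} [MeasurableSpace Y] {μ : Measure Y} {T : Y → Y}

/-- in an ergodic system almost every orbit contains a block of matches -/
lemma ae_block [IsProbabilityMeasure μ] (hT : Ergodic T μ) {M : Set Y} (hM : MeasurableSet M)
    (N : ℕ) (h : (N : ENNReal) * μ M < 1) : ∀ᵐ y ∂μ, ∃ u : ℕ, ∀ k, k < N → T^[u + k] y ∉ M := by
  have hTm := hT.toMeasurePreserving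
  set G : Set Y := ⋂ k : Fin N, (T^[(k : ℕ)]) ⁻¹' Mᶜ with hG
  have hGm : MeasurableSet G :=
    MeasurableSet.iInter fun k => (hTm.iterate k).measurable hM.compl
  have hGc : μ Gᶜ ≤ N * μ M := by
    rw [hG, Set.compl_iInter]
    refine (measure_iUnion_le _).trans ?_
    rw [tsum_fintype]
    have h1 : ∀ k : Fin N, μ ((T^[(k : ℕ)]) ⁻¹' Mᶜ)ᶜ = μ M := by
      intro k
      rw [← Set.preimage_compl, compl_compl]
      exact (hTm.iterate k).measure_preimage hM.nullMeasurableSet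
    rw [Finset.sum_congr rfl fun k _ => h1 k]
    simp
  have hGpos : μ G ≠ 0 := by
    intro h0
    have h1 := prob_compl_eq_one_iff hGm (μ := μ)
    rw [h1.2 h0] at hGc
    exact absurd (lt_of_le_of_lt hGc h) (lt_irrefl _)
  set A : Set Y := ⋃ u : ℕ, (T^[u]) ⁻¹' G with hA
  have hAm : MeasurableSet A := MeasurableSet.iUnion fun u => (hTm.iterate u).measurable hGm
  have hAinv : T ⁻¹' A ⊆ A := by
    intro y hy
    obtain ⟨u, hu⟩ := Set.mem_iUnion.1 hy
    refine Set.mem_iUnion.2 ⟨u + 1, ?_⟩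
    rw [Set.mem_preimage, Function.iterate_succ_apply]
    exact hu
  rcases hT.ae_empty_or_univ_of_preimage_ae_le hAm.nullMeasurableSet
    (Filter.Eventually.of_forall hAinv) with h1 | h1
  · exfalso
    apply hGpos
    have h2 : μ A = 0 := by rw [measure_congr h1, measure_empty]
    refine measure_mono_null ?_ h2
    intro y hy
    exact Set.mem_iUnion.2 ⟨0, hy⟩
  · have h2 := (ae_eq_univ.1 h1)
    have h3 : ∀ᵐ y ∂μ, y ∈ A := by
      rw [ae_iff]
      exact h2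
    filter_upwards [h3] with y hy
    obtain ⟨u, hu⟩ := Set.mem_iUnion.1 hy
    refine ⟨u, fun k hk => ?_⟩
    have h4 := Set.mem_iInter.1 hu ⟨k, hk⟩
    rw [add_comm, Function.iterate_add_apply]
    exact h4

/-- **Rigid systems, regular continued fractions.** -/
theorem ergodic_code [IsProbabilityMeasure μ] (hT : Ergodic T μ) (c : Y → ℤ × ℤ)
    (hc : Measurable c) (X : ℝ) (hX : ∀ y, |((c y).2 : ℝ)| ≤ X)
    (h : ∀ s : ℕ, ∃ (n : ℕ) (σ : ℤ), 1 ≤ n ∧ (σ = 1 ∨ σ = -1) ∧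
      ((2 * n + s : ℕ) : ENNReal) * μ {y | c (T^[n] y) ≠ tw σ (c y)} < 1) :
    ∀ᵐ y ∂μ, CodeLC (fun k => c (T^[k] y)) := by
  have hTm := hT.toMeasurePreserving
  have hs : ∀ s : ℕ, ∀ᵐ y ∂μ, ∃ (r u : ℕ) (σ : ℤ), 1 ≤ r ∧ (σ = 1 ∨ σ = -1) ∧
      ∀ k, k < 2 * r + s → c (T^[u + k + r] y) = tw σ (c (T^[u + k] y)) := by
    intro s
    obtain ⟨n, σ, hn, hσ, hlt⟩ := h s
    have htw : Measurable (tw σ) := measurable_of_countable _
    have hM : MeasurableSet {y | c (T^[n] y) ≠ tw σ (c y)} := by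
      have h1 : Measurable fun y => (c (T^[n] y), tw σ (c y)) :=
        (hc.comp (hTm.iterate n).measurable).prodMk (htw.comp hc)
      exact h1 (measurableSet_diagonal.compl)
    filter_upwards [ae_block hT hM _ hlt] with y hy
    obtain ⟨u, hu⟩ := hy
    refine ⟨n, u, σ, hn, hσ, fun k hk => ?_⟩
    have h1 := hu k hk
    rw [not_not] at h1
    rw [← Function.iterate_add_apply, show n + (u + k) = u + k + n by ring] at h1
    exact h1
  filter_upwards [ae_all_iff.2 hs] with y hy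
  exact codeLC_of_blocks X (fun k => hX _) hy

/-- **Rigid systems, quadratic `α`.** -/
theorem ergodic_quad [IsProbabilityMeasure μ] (hT : Ergodic T μ) (c : Y → ℤ)
    (hc : Measurable c) (B : ℤ) (hB : ∀ y, |c y| ≤ B)
    (h : ∀ s : ℕ, ∃ (n : ℕ) (σ : ℤ), 1 ≤ n ∧ (σ = 1 ∨ σ = -1) ∧
      ((n + s : ℕ) : ENNReal) * μ {y | c (T^[n] y) ≠ σ * c y} < 2) :
    ∀ᵐ y ∂μ, QuadLC (fun k => c (T^[k] y)) := by
  have hTm := hT.toMeasurePreserving
  have hs : ∀ K : ℕ, ∀ᵐ y ∂μ, ∃ (s ℓ n : ℕ) (σ : ℤ), 0 < ℓ ∧ ℓ + K ≤ 2 * n ∧ (σ = 1 ∨ σ = -1) ∧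
      ∀ k, k < n → c (T^[s + k + ℓ] y) = σ * c (T^[s + k] y) := by
    intro K
    obtain ⟨n, σ, hn, hσ, hlt⟩ := h (K + 1)
    have hM : MeasurableSet {y | c (T^[n] y) ≠ σ * c y} := by
      have h1 : Measurable fun y => (c (T^[n] y), σ * c y) :=
        (hc.comp (hTm.iterate n).measurable).prodMk (hc.const_mul σ)
      exact h1 (measurableSet_diagonal.compl)
    have hlt2 : (((n + K + 1) / 2 : ℕ) : ENNReal) * μ {y | c (T^[n] y) ≠ σ * c y} < 1 := by
      by_contra hcon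
      push Not at hcon
      have h2 : (2 : ENNReal) ≤ ((n + (K + 1) : ℕ) : ENNReal) * μ {y | c (T^[n] y) ≠ σ * c y} := by
        calc (2 : ENNReal) = 2 * 1 := by norm_num
          _ ≤ 2 * ((((n + K + 1) / 2 : ℕ) : ENNReal) * μ {y | c (T^[n] y) ≠ σ * c y}) := by gcongr
          _ = ((2 * ((n + K + 1) / 2) : ℕ) : ENNReal) * μ {y | c (T^[n] y) ≠ σ * c y} := by
              push_cast; ring
          _ ≤ _ := by
              gcongr
              omega
      exact absurd (lt_of_lt_of_le hlt h2) (lt_irrefl _)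
    filter_upwards [ae_block hT hM _ hlt2] with y hy
    obtain ⟨u, hu⟩ := hy
    refine ⟨u, n, (n + K + 1) / 2, σ, hn, by omega, hσ, fun k hk => ?_⟩
    have h1 := hu k hk
    rw [not_not] at h1
    rw [← Function.iterate_add_apply, show n + (u + k) = u + k + n by ring] at h1
    exact h1
  filter_upwards [ae_all_iff.2 hs] with y hy
  exact quadLC_of_blocks B (fun k => hB _) hy

end ergodic

end Pool.Agent.R329.LitCodes
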