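import Pool.Agent.R329.LitCodes

/-! # Littlewood's conjecture for the codes of generic invariant measures -/

set_option autoImplicit false

open MeasureTheory Filter Topology

namespace Pool.Agent.R329.LitCodes

/-- the shift -/
def shift {m : ℕ} (ω : ℕ → Fin m) : ℕ → Fin m := fun k => ω (k + 1)

lemma shift_iterate {m : ℕ} (i : ℕ) (ω : ℕ → Fin m) : shift^[i] ω = fun k => ω (i + k) := by
  induction i generalizing ω with
  | zero => funext k; simp
  | succ i ih =>
    rw [Function.iterate_succ_apply, ih]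
    funext k
    simp only [shift]
    congr 1
    ring

lemma measurable_shift {m : ℕ} : Measurable (shift : (ℕ → Fin m) → (ℕ → Fin m)) :=
  measurable_pi_lambda _ fun k => measurable_pi_apply (k + 1)

lemma continuous_shift {m : ℕ} : Continuous (shift : (ℕ → Fin m) → (ℕ → Fin m)) :=
  continuous_pi fun k => continuous_apply (k + 1)

/-- the shift invariant probability measures -/
abbrev Inv (m : ℕ) : Type :=
  {μ : ProbabilityMeasure (ℕ → Fin m) // MeasurePreserving shift (μ : Measure (ℕ → Fin m)) μ}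

/-- the codes with a block of period `n` and length at least `3 n + s` -/
def Blk (m s : ℕ) : Set (ℕ → Fin m) :=
  {ω | ∃ n u : ℕ, 1 ≤ n ∧ ∀ k, k < 2 * n + s → ω (u + k + n) = ω (u + k)}

lemma isOpen_Blk (m s : ℕ) : IsOpen (Blk m s) := by
  have : Blk m s = ⋃ n : ℕ, ⋃ u : ℕ, ⋃ (_ : 1 ≤ n), ⋂ k : Fin (2 * n + s),
      {ω : ℕ → Fin m | ω (u + k + n) = ω (u + k)} := by
    ext ω
    simp only [Blk, Set.mem_iUnion, Set.mem_iInter]
    constructor
    · rintro ⟨n, u, hn, h⟩
      exact ⟨n, u, hn, fun k => h k k.2⟩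
    · rintro ⟨n, u, hn, h⟩
      exact ⟨n, u, hn, fun k hk => h ⟨k, hk⟩⟩
  rw [this]
  refine isOpen_iUnion fun n => isOpen_iUnion fun u => isOpen_iUnion fun _ => ?_
  refine isOpen_iInter_of_finite fun k => ?_
  have hc : Continuous fun ω : ℕ → Fin m => (ω (u + k + n), ω (u + k)) :=
    (continuous_apply _).prodMk (continuous_apply _)
  exact (isOpen_discrete (Set.diagonal (Fin m))).preimage hc

lemma Blk_anti (m : ℕ) {s s' : ℕ} (h : s ≤ s') : Blk m s' ⊆ Blk m s := by
  rintro ω ⟨n, u, hn, hk⟩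
  exact ⟨n, u, hn, fun k hk' => hk k (by omega)⟩

/-- periodic codes -/
def per {m : ℕ} (N i : ℕ) (ω : ℕ → Fin m) : ℕ → Fin m := fun k => ω ((i + k) % N)

lemma measurable_per {m : ℕ} (N i : ℕ) : Measurable (per N i : (ℕ → Fin m) → (ℕ → Fin m)) :=
  measurable_pi_lambda _ fun k => measurable_pi_apply ((i + k) % N)

lemma shift_per {m : ℕ} (N i : ℕ) (ω : ℕ → Fin m) : shift (per N i ω) = per N (i + 1) ω := by
  funext k
  simp only [shift, per]
  congr 2
  ring

lemma per_self {m : ℕ} (N : ℕ) (ω : ℕ → Fin m) : per N N ω = per N 0 ω := by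
  funext k
  simp [per]

lemma per_mem_Blk {m : ℕ} (N i s : ℕ) (hN : 1 ≤ N) (ω : ℕ → Fin m) : per N i ω ∈ Blk m s := by
  refine ⟨N, 0, hN, fun k _ => ?_⟩
  simp only [per]
  congr 1
  rw [show i + (0 + k + N) = (i + (0 + k)) + N by ring, Nat.add_mod_right]

/-- the average of the laws of the shifts of the periodic codes -/
noncomputable def nu {m : ℕ} (μ : Measure (ℕ → Fin m)) (N : ℕ) : Measure (ℕ → Fin m) :=
  (N : ENNReal)⁻¹ • ∑ i ∈ Finset.range N, μ.map (per N i)

lemma nu_prob {m : ℕ} (μ : Measure (ℕ → Fin m)) [IsProbabilityMeasure μ] {N : ℕ} (hN : 1 ≤ N) :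
    IsProbabilityMeasure (nu μ N) := by
  constructor
  unfold nu
  rw [Measure.smul_apply, Measure.finsetSum_apply]
  have h1 : ∀ i ∈ Finset.range N, (μ.map (per N i)) Set.univ = 1 := by
    intro i _
    rw [Measure.map_apply (measurable_per N i) MeasurableSet.univ, Set.preimage_univ, measure_univ]
  rw [Finset.sum_congr rfl h1]
  simp only [Finset.sum_const, Finset.card_range, nsmul_eq_mul, mul_one, smul_eq_mul]
  exact ENNReal.inv_mul_cancel (by exact_mod_cast (by omega : N ≠ 0)) (ENNReal.natCast_ne_top N)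

lemma nu_inv {m : ℕ} (μ : Measure (ℕ → Fin m)) [IsProbabilityMeasure μ] (N : ℕ) :
    MeasurePreserving shift (nu μ N) (nu μ N) := by
  refine ⟨measurable_shift, ?_⟩
  unfold nu
  rw [Measure.map_smul, ← Measure.mapₗ_apply_of_measurable measurable_shift, map_sum]
  congr 1
  have h1 : ∀ i ∈ Finset.range N, Measure.mapₗ shift (μ.map (per N i)) = μ.map (per N (i + 1)) := by
    intro i _
    rw [Measure.mapₗ_apply_of_measurable measurable_shift,
      Measure.map_map measurable_shift (measurable_per N i)]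
    congr 1
    funext ω
    exact shift_per N i ω
  rw [Finset.sum_congr rfl h1]
  have h2 := Finset.sum_range_succ (fun i => μ.map (per N i)) N
  rw [Finset.sum_range_succ'] at h2
  have h3 : (per N N : (ℕ → Fin m) → (ℕ → Fin m)) = per N 0 := by
    funext ω
    exact per_self N ω
  rw [h3] at h2
  have hfin : IsFiniteMeasure (μ.map (per N 0)) := by
    have := Measure.isProbabilityMeasure_map (μ := μ) (measurable_per N 0).aemeasurable
    infer_instance
  ext s hs
  have h4 := congrArg (fun ν : Measure (ℕ → Fin m) => ν s) h2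
  simp only [Measure.add_apply] at h4
  exact (ENNReal.add_left_inj (measure_ne_top _ _)).1 h4

lemma nu_Blk {m : ℕ} (μ : Measure (ℕ → Fin m)) [IsProbabilityMeasure μ] {N : ℕ} (hN : 1 ≤ N)
    (s : ℕ) : nu μ N (Blk m s) = 1 := by
  unfold nu
  rw [Measure.smul_apply, Measure.finsetSum_apply]
  have h1 : ∀ i ∈ Finset.range N, (μ.map (per N i)) (Blk m s) = 1 := by
    intro i _
    rw [Measure.map_apply (measurable_per N i) (isOpen_Blk m s).measurableSet]
    have : per N i ⁻¹' Blk m s = Set.univ := by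
      ext ω
      simp only [Set.mem_preimage, Set.mem_univ, iff_true]
      exact per_mem_Blk N i s hN ω
    rw [this, measure_univ]
  rw [Finset.sum_congr rfl h1]
  simp only [Finset.sum_const, Finset.card_range, nsmul_eq_mul, mul_one, smul_eq_mul]
  exact ENNReal.inv_mul_cancel (by exact_mod_cast (by omega : N ≠ 0)) (ENNReal.natCast_ne_top N)

/-- continuous functions depend essentially on finitely many coordinates -/
lemma exists_coord {m : ℕ} (f : (ℕ → Fin m) → ℝ) (hf : Continuous f) (ε : ℝ) (hε : 0 < ε) :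
    ∃ L : ℕ, ∀ ω ω' : ℕ → Fin m, (∀ k, k < L → ω k = ω' k) → |f ω - f ω'| < ε := by
  by_contra hcon
  push Not at hcon
  choose a b hab hfar using hcon
  obtain ⟨z, φ, hφ, hlim⟩ := CompactSpace.tendsto_subseq a
  have hlim2 : Tendsto (b ∘ φ) atTop (𝓝 z) := by
    rw [tendsto_pi_nhds] at hlim ⊢
    intro k
    refine (hlim k).congr' ?_
    filter_upwards [eventually_ge_atTop (k + 1)] with n hn
    have h1 : n ≤ φ n := hφ.id_le n
    exact hab (φ n) k (by omega)
  have h1 := (hf.tendsto z).comp hlim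
  have h2 := (hf.tendsto z).comp hlim2
  have h3 := (h1.sub h2).abs
  rw [sub_self, abs_zero] at h3
  obtain ⟨n, hn⟩ := (h3.eventually (gt_mem_nhds hε)).exists
  exact absurd hn (not_lt.2 (hfar (φ n)))

lemma integral_nu {m : ℕ} (μ : Measure (ℕ → Fin m)) [IsProbabilityMeasure μ] (N : ℕ)
    (f : BoundedContinuousFunction (ℕ → Fin m) ℝ) :
    ∫ ω, f ω ∂(nu μ N) = (N : ℝ)⁻¹ * ∑ i ∈ Finset.range N, ∫ ω, f (per N i ω) ∂μ := by
  unfold nu
  rw [integral_smul_measure, integral_finsetSum_measure]
  · rw [ENNReal.toReal_inv, ENNReal.toReal_natCast, smul_eq_mul]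
    congr 1
    refine Finset.sum_congr rfl fun i _ => ?_
    exact integral_map (measurable_per N i).aemeasurable
      f.continuous.measurable.aestronglyMeasurable
  · intro i _
    have := Measure.isProbabilityMeasure_map (μ := μ) (measurable_per N i).aemeasurable
    exact f.integrable _

lemma tendsto_nu {m : ℕ} (μ : Measure (ℕ → Fin m)) [IsProbabilityMeasure μ]
    (hμ : MeasurePreserving shift μ μ) (f : BoundedContinuousFunction (ℕ → Fin m) ℝ) :
    Tendsto (fun N => ∫ ω, f ω ∂(nu μ N)) atTop (𝓝 (∫ ω, f ω ∂μ)) := by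
  rw [Metric.tendsto_atTop]
  intro ε hε
  obtain ⟨L, hL⟩ := exists_coord f f.continuous (ε / 2) (by positivity)
  obtain ⟨N₀, hN₀⟩ := exists_nat_gt (2 * ‖f‖ * L / (ε / 2))
  refine ⟨max N₀ 1, fun N hN => ?_⟩
  have hN1 : 1 ≤ N := (le_max_right _ _).trans hN
  have hNN : (N₀ : ℝ) ≤ N := by exact_mod_cast (le_max_left _ _).trans hN
  have hNpos : (0 : ℝ) < N := by exact_mod_cast hN1
  rw [Real.dist_eq, integral_nu]
  -- invariance
  have hinv : ∀ i : ℕ, ∫ ω, f (shift^[i] ω) ∂μ = ∫ ω, f ω ∂μ := by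
    intro i
    have h1 := hμ.iterate i
    have h2 := integral_map (μ := μ) h1.measurable.aemeasurable
      (f := f) f.continuous.measurable.aestronglyMeasurable
    rw [h1.map_eq] at h2
    exact h2.symm
  have hint : ∀ g : (ℕ → Fin m) → (ℕ → Fin m), Measurable g → Integrable (fun ω => f (g ω)) μ := by
    intro g hg
    refine Integrable.of_bound (f.continuous.measurable.comp hg).aestronglyMeasurable ‖f‖ ?_
    exact Eventually.of_forall fun ω => f.norm_coe_le_norm _
  have hterm : ∀ i, |∫ ω, f (per N i ω) ∂μ - ∫ ω, f ω ∂μ| ≤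
      if i + L ≤ N then ε / 2 else 2 * ‖f‖ := by
    intro i
    rw [← hinv i, ← integral_sub (hint _ (measurable_per N i)) (hint _ (hμ.iterate i).measurable)]
    have hle : ∀ ω, ‖f (per N i ω) - f (shift^[i] ω)‖ ≤ if i + L ≤ N then ε / 2 else 2 * ‖f‖ := by
      intro ω
      split_ifs with h
      · rw [Real.norm_eq_abs]
        refine (hL _ _ fun k hk => ?_).le
        rw [shift_iterate]
        simp only [per]
        rw [Nat.mod_eq_of_lt (by omega)]
      · have h1 := f.norm_coe_le_norm (per N i ω)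
        have h2 := f.norm_coe_le_norm (shift^[i] ω)
        refine (norm_sub_le _ _).trans ?_
        linarith
    have h3 := norm_integral_le_of_norm_le_const (μ := μ) (Eventually.of_forall hle)
    rw [Real.norm_eq_abs] at h3
    simpa using h3
  have hsum : (N : ℝ)⁻¹ * ∑ i ∈ Finset.range N, ∫ ω, f (per N i ω) ∂μ - ∫ ω, f ω ∂μ
      = (N : ℝ)⁻¹ * ∑ i ∈ Finset.range N, (∫ ω, f (per N i ω) ∂μ - ∫ ω, f ω ∂μ) := by
    rw [Finset.sum_sub_distrib, Finset.sum_const, Finset.card_range, nsmul_eq_mul, mul_sub,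
      ← mul_assoc, inv_mul_cancel₀ hNpos.ne', one_mul]
  rw [hsum, abs_mul, abs_of_pos (inv_pos.2 hNpos)]
  have h4 : |∑ i ∈ Finset.range N, (∫ ω, f (per N i ω) ∂μ - ∫ ω, f ω ∂μ)|
      ≤ N * (ε / 2) + L * (2 * ‖f‖) := by
    refine (Finset.abs_sum_le_sum_abs _ _).trans ?_
    refine (Finset.sum_le_sum fun i _ => hterm i).trans ?_
    rw [Finset.sum_ite, Finset.sum_const, Finset.sum_const, nsmul_eq_mul, nsmul_eq_mul]
    have h5 : (((Finset.range N).filter fun i => i + L ≤ N).card : ℝ) ≤ N := by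
      have := Finset.card_filter_le (Finset.range N) fun i => i + L ≤ N
      rw [Finset.card_range] at this
      exact_mod_cast this
    have h6 : (((Finset.range N).filter fun i => ¬ (i + L ≤ N)).card : ℝ) ≤ L := by
      have : (Finset.range N).filter (fun i => ¬ (i + L ≤ N)) ⊆ Finset.Ico (N - L + 1) N ∪
          (if L ≤ N then ∅ else Finset.range N) := by
        intro i hi
        rw [Finset.mem_filter, Finset.mem_range] at hi
        rw [Finset.mem_union]
        split_ifs with h
        · left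
          rw [Finset.mem_Ico]
          omega
        · right
          rw [Finset.mem_range]
          exact hi.1
      have h7 : ((Finset.range N).filter fun i => ¬ (i + L ≤ N)).card ≤ L := by
        by_cases h : L ≤ N
        · rw [if_pos h, Finset.union_empty] at this
          refine (Finset.card_le_card this).trans ?_
          rw [Nat.card_Ico]
          omega
        · refine (Finset.card_filter_le _ _).trans ?_
          rw [Finset.card_range]
          omega
      exact_mod_cast h7
    gcongr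
  calc (N : ℝ)⁻¹ * |∑ i ∈ Finset.range N, (∫ ω, f (per N i ω) ∂μ - ∫ ω, f ω ∂μ)|
      ≤ (N : ℝ)⁻¹ * (N * (ε / 2) + L * (2 * ‖f‖)) := by gcongr
    _ = ε / 2 + (2 * ‖f‖ * L) / N := by
        field_simp
    _ < ε / 2 + ε / 2 := by
        have h7 : (2 * ‖f‖ * L) / N < ε / 2 := by
          rw [div_lt_iff₀ hNpos]
          rw [div_lt_iff₀ (by positivity)] at hN₀
          nlinarith
        linarith
    _ = ε := by ring

instance (m : ℕ) : CompactSpace (Inv m) := by
  have hcl : IsClosed {μ : ProbabilityMeasure (ℕ → Fin m) |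
      MeasurePreserving shift (μ : Measure (ℕ → Fin m)) μ} := by
    have h1 : {μ : ProbabilityMeasure (ℕ → Fin m) |
        MeasurePreserving shift (μ : Measure (ℕ → Fin m)) μ}
        = {μ | μ.map (measurable_shift.aemeasurable) = μ} := by
      ext μ
      constructor
      · intro h
        apply Subtype.ext
        exact h.map_eq
      · intro h
        refine ⟨measurable_shift, ?_⟩
        exact congrArg Subtype.val h
    rw [h1]
    exact isClosed_eq (ProbabilityMeasure.continuous_map continuous_shift) continuous_id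
  exact isCompact_iff_compactSpace.1 hcl.isCompact

/-- **Generic invariant measures.** -/
theorem generic (m : ℕ) : ∃ G : Set (Inv m), IsGδ G ∧ Dense G ∧ ∀ μ ∈ G,
    ∀ᵐ ω ∂(μ.1 : Measure (ℕ → Fin m)), ∀ s : ℕ, ω ∈ Blk m s := by
  set U : ℕ → Set (Inv m) := fun s =>
    {μ | 1 - (1 / 2 : ENNReal) ^ s < (μ.1 : Measure (ℕ → Fin m)) (Blk m s)} with hU
  have hUo : ∀ s, IsOpen (U s) := by
    intro s
    rw [isOpen_iff_mem_nhds]
    intro μ hμ
    have h1 : Tendsto (fun ν : Inv m => ν.1) (𝓝 μ) (𝓝 μ.1) := continuous_subtype_val.tendsto μ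
    have h2 := ProbabilityMeasure.le_liminf_measure_open_of_tendsto h1 (isOpen_Blk m s)
    have h3 : 1 - (1 / 2 : ENNReal) ^ s < Filter.liminf (fun ν : Inv m =>
        (ν.1 : Measure (ℕ → Fin m)) (Blk m s)) (𝓝 μ) := lt_of_lt_of_le hμ h2
    exact eventually_lt_of_lt_liminf h3
  have hUd : ∀ s, Dense (U s) := by
    intro s μ
    have hμ := μ.2
    let ν : ℕ → Inv m := fun N => ⟨⟨nu (μ.1 : Measure (ℕ → Fin m)) (N + 1),
      nu_prob _ (by omega)⟩, nu_inv _ _⟩
    refine mem_closure_of_tendsto (f := ν) (b := atTop) ?_ ?_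
    · rw [tendsto_subtype_rng, ProbabilityMeasure.tendsto_iff_forall_integral_tendsto]
      intro f
      exact (tendsto_nu (μ.1 : Measure (ℕ → Fin m)) hμ f).comp (tendsto_add_atTop_nat 1)
    · refine Eventually.of_forall fun N => ?_
      show 1 - (1 / 2 : ENNReal) ^ s < nu (μ.1 : Measure (ℕ → Fin m)) (N + 1) (Blk m s)
      rw [nu_Blk _ (by omega) s]
      refine ENNReal.sub_lt_self ENNReal.one_ne_top one_ne_zero ?_
      exact pow_ne_zero _ (by norm_num)
  refine ⟨⋂ s, U s, IsGδ.iInter_of_isOpen hUo, dense_iInter_of_isOpen hUo hUd, fun μ hμ => ?_⟩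
  rw [ae_all_iff]
  intro s
  have hms := (isOpen_Blk m s).measurableSet
  have h1 : (μ.1 : Measure (ℕ → Fin m)) (Blk m s) = 1 := by
    refine le_antisymm prob_le_one ?_
    refine ENNReal.le_of_forall_pos_le_add fun ε hε _ => ?_
    have hε' : (ε : ENNReal) ≠ 0 := by exact_mod_cast hε.ne'
    have hhalf : (1 / 2 : ENNReal) < 1 := by
      rw [one_div]
      exact ENNReal.inv_lt_one.2 ENNReal.one_lt_two
    obtain ⟨t, ht⟩ := ((ENNReal.tendsto_pow_atTop_nhds_zero_of_lt_one hhalf).eventually
      (gt_mem_nhds (pos_iff_ne_zero.2 hε'))).exists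
    have h2 : 1 - (1 / 2 : ENNReal) ^ (max s t) < (μ.1 : Measure (ℕ → Fin m)) (Blk m (max s t)) :=
      Set.mem_iInter.1 hμ (max s t)
    have h3 : (μ.1 : Measure (ℕ → Fin m)) (Blk m (max s t)) ≤
        (μ.1 : Measure (ℕ → Fin m)) (Blk m s) := measure_mono (Blk_anti m (le_max_left _ _))
    have h4 : (1 / 2 : ENNReal) ^ (max s t) ≤ ε := by
      refine le_trans ?_ ht.le
      exact pow_le_pow_of_le_one bot_le hhalf.le (le_max_right _ _)
    have h5 : (1 : ENNReal) ≤ (μ.1 : Measure (ℕ → Fin m)) (Blk m (max s t))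
        + (1 / 2 : ENNReal) ^ (max s t) := by
      have := tsub_le_iff_right.1 (le_of_lt h2)
      exact this
    calc (1 : ENNReal) ≤ _ := h5
      _ ≤ _ := add_le_add h3 h4
  rw [← prob_compl_eq_zero_iff hms] at h1
  exact h1

end Pool.Agent.R329.LitCodes
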