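import Pool.Agent.R329.LitRecA

/-! # Codes of pairs with reciprocal linear recurrences -/

set_option autoImplicit false

open Finset

namespace Pool.Agent.R329.LitRec

open Pool.Agent.W13.LM


variable {α : ℝ} {a₀ : ℤ} {b q : ℕ → ℤ} {D : ℕ → ℝ}

/-- one window gives one good denominator -/
theorem one_window {c : ℝ} (hc : 0 < c) (hc1 : c ≤ 1 / 2) (E : Exp α a₀ b q D) {β : ℝ}
    (hbad : ∀ q : ℕ, 0 < q → c ≤ (q : ℝ) * |(q : ℝ) * α - (round ((q : ℝ) * α) : ℝ)|)
    (hprod : ∀ q : ℕ, 0 < q → c ≤ (q : ℝ) * |(q : ℝ) * α - (round ((q : ℝ) * α) : ℝ)|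
      * |(q : ℝ) * β - (round ((q : ℝ) * β) : ℝ)|)
    (B : ℝ) (n : ℕ → ℤ) (hn : ∀ k, |(q k : ℝ) * β - n k| ≤ B) (g r l N : ℕ)
    (w : ℕ → ℤ) (hw : ∀ j, j ≤ 2 * g → w (2 * g - j) = w j)
    (hN : g * r + 1 ≤ N)
    (hb : ∀ k, l ≤ k → k + r < l + 2 * g * r + N → b (k + r + 1) = b (k + 1))
    (hM : ∑ j ∈ range (2 * g + 1), w j • (Pm b l r) ^ j ≠ 0)
    (hz : ∀ k, l ≤ k → k < l + N → ∑ j ∈ range (2 * g + 1), w j *
      (n (k + j * r + 2) + n (k + j * r) - b (k + j * r + 1) * n (k + j * r + 1)) = 0)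
    (H : ℝ) (hH : H = ∑ j ∈ range (2 * g + 1), |(w j : ℝ)|)
    (hs1 : (1 - c) ^ (N - (g * r + 1)) ≤ c ^ 3)
    (hs2 : 2 * H * (1 - c) ^ (N - (g * r + 1)) < c)
    (hs3 : (64 * H * B * ((c + 1) / c ^ 2) ^ 2) ^ 2 * (2 * H * (1 - c) ^ (N - (g * r + 1))) < c ^ 3) :
    False := by
  have hB0 : 0 ≤ B := (abs_nonneg _).trans (hn 0)
  have hH0 : 0 ≤ H := by rw [hH]; positivity
  have h1c : 0 ≤ 1 - c := by linarith
  have h1c1 : 1 - c ≤ 1 := by linarith
  set e : ℕ := l + 2 * g * r + N with he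
  have h2g : 2 * g * r = g * r + g * r := by ring
  set t : ℤ := (Pm b l r).trace with ht
  set S : ℤ := ∑ j ∈ range (2 * g + 1), w j * tau t ((g - j) + (j - g)) with hS
  have hlast : g = 0 ∨ l + 2 * r ≤ e := by
    rcases Nat.eq_zero_or_pos g with h | h
    · exact Or.inl h
    · right
      have : 1 * r ≤ g * r := Nat.mul_le_mul_right r h
      omega
  -- S ≠ 0
  have hS0 : S ≠ 0 := by
    intro h0
    apply hM
    have h1 := mat_sum (Pm b l r) (Pm_det b l r) g w hw
    rw [← ht, ← hS, h0, zero_smul] at h1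
    exact (smul_eq_zero.1 h1).resolve_left (by norm_num)
  set m : ℕ := S.natAbs with hm
  have hm1 : 1 ≤ m := Int.natAbs_pos.2 hS0
  have hmS : (m : ℝ) = |(S : ℝ)| := by
    rw [hm, Nat.cast_natAbs]
    push_cast
    rfl
  -- the homogeneous solutions
  have hqH : Hom b (fun k => (q k : ℝ)) l e := by
    intro k _ _
    show (q (k + 2) : ℝ) = b (k + 1) * q (k + 1) - q k
    rw [E.qr]
    push_cast
    ring
  -- the error sequence
  set ee : ℕ → ℝ := fun k => (q k : ℝ) * β - n k with hee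
  set F : ℕ → ℝ := fun k => 2 * ∑ j ∈ range (2 * g + 1), (w j : ℝ) * ee (k + j * r) with hF
  set NN : ℕ → ℤ := fun k => 2 * ∑ j ∈ range (2 * g + 1), w j * n (k + j * r) with hNN
  have hFb : ∀ k, |F k| ≤ 2 * H * B := by
    intro k
    simp only [hF]
    rw [abs_mul, abs_of_pos (by norm_num : (0 : ℝ) < 2), mul_assoc]
    refine mul_le_mul_of_nonneg_left ?_ (by norm_num)
    rw [hH, Finset.sum_mul]
    refine (abs_sum_le_sum_abs _ _).trans (sum_le_sum fun j _ => ?_)
    rw [abs_mul]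
    exact mul_le_mul_of_nonneg_left (hn _) (abs_nonneg _)
  have hFS : ∀ k, l ≤ k → k ≤ l + N + 1 → F k = S * q (k + g * r) * β - NN k := by
    intro k hk1 hk2
    have h1 := step_sum hqH hb g w hw k hk1 (by omega) hlast
    rw [← ht, ← hS] at h1
    simp only [hF, hee, hNN]
    push_cast
    rw [← h1]
    rw [mul_assoc 2 _ β, ← mul_sub]
    congr 1
    rw [Finset.sum_mul, ← Finset.sum_sub_distrib]
    refine sum_congr rfl fun j _ => ?_
    ring
  have hFrec : ∀ k, l ≤ k → k < l + N → F (k + 2) = b (k + g * r + 1) * F (k + 1) - F k := by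
    intro k hk1 hk2
    have hbk : ∀ j, j ≤ 2 * g → b (k + j * r + 1) = b (k + 1) := by
      intro j hj
      refine b_per hb j k hk1 ?_
      have : j * r ≤ 2 * g * r := Nat.mul_le_mul_right r hj
      omega
    have hz' : (∑ j ∈ range (2 * g + 1), (w j : ℝ) *
      (n (k + j * r + 2) + n (k + j * r) - b (k + 1) * n (k + j * r + 1))) = 0 := by
      have h1 := hz k hk1 hk2
      have h2 : (∑ j ∈ range (2 * g + 1), w j *
          (n (k + j * r + 2) + n (k + j * r) - b (k + 1) * n (k + j * r + 1))) = 0 := by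
        rw [← h1]
        refine sum_congr rfl fun j hj => ?_
        rw [mem_range] at hj
        rw [hbk j (by omega)]
      exact_mod_cast h2
    rw [hbk g (by omega)]
    simp only [hF]
    have h3 : ∀ j ∈ range (2 * g + 1), (w j : ℝ) * ee (k + 2 + j * r)
        = b (k + 1) * ((w j : ℝ) * ee (k + 1 + j * r)) - (w j : ℝ) * ee (k + j * r)
          - (w j : ℝ) * (n (k + j * r + 2) + n (k + j * r) - b (k + 1) * n (k + j * r + 1)) := by
      intro j hj
      rw [mem_range] at hj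
      have h4 : (q (k + j * r + 2) : ℝ) = b (k + 1) * q (k + j * r + 1) - q (k + j * r) := by
        rw [E.qr, hbk j (by omega)]
        push_cast
        ring
      simp only [hee]
      rw [show k + 2 + j * r = k + j * r + 2 by ring, show k + 1 + j * r = k + j * r + 1 by ring, h4]
      ring
    rw [sum_congr rfl h3, sum_sub_distrib, sum_sub_distrib, ← mul_sum, hz']
    ring
  -- the constants
  set X : ℕ → ℝ := fun k => F (k + 1) * D (k + g * r) - F k * D (k + g * r + 1) with hX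
  set Y : ℕ → ℝ := fun k => q (k + g * r + 1) * F k - q (k + g * r) * F (k + 1) with hY
  have hconst : ∀ i, i ≤ N → X (l + i) = X l ∧ Y (l + i) = Y l := by
    intro i
    induction i with
    | zero => intro _; exact ⟨rfl, rfl⟩
    | succ i ih =>
      intro hi
      obtain ⟨h1, h2⟩ := ih (by omega)
      have h3 := hFrec (l + i) (by omega) (by omega)
      have h4 := E.Dr (l + i + g * r)
      have h5 : (q (l + i + g * r + 2) : ℝ) = b (l + i + g * r + 1) * q (l + i + g * r + 1)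
          - q (l + i + g * r) := by
        rw [E.qr]; push_cast; ring
      constructor
      · rw [← h1]
        simp only [hX]
        rw [show l + (i + 1) + 1 = l + i + 2 by ring,
          show l + (i + 1) + g * r = l + i + g * r + 1 by ring,
          show l + i + g * r + 1 + 1 = l + i + g * r + 2 by ring, h3, h4,
          show l + (i + 1) = l + i + 1 by ring]
        ring
      · rw [← h2]
        simp only [hY]
        rw [show l + (i + 1) + 1 = l + i + 2 by ring,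
          show l + (i + 1) + g * r = l + i + g * r + 1 by ring,
          show l + i + g * r + 1 + 1 = l + i + g * r + 2 by ring, h3, h5,
          show l + (i + 1) = l + i + 1 by ring]
        ring
  set L : ℕ := l + g * r with hL
  set R : ℕ := l + N + g * r with hR
  set A : ℝ := D R with hA
  set A' : ℝ := ((q (L + 1) : ℤ) : ℝ) with hA'
  have hA0 : 0 < A := E.pos _
  have hA'1 : 1 ≤ A' := by
    have h1 := E.qlt L
    have h2 := E.qnonneg L
    simp only [hA']
    linarith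
  set X0 := X l with hX0
  set Y0 := Y l with hY0
  have hXb : |X0| ≤ 4 * H * B * A := by
    rw [← (hconst N le_rfl).1]
    simp only [hX]
    have h1 := hFb (l + N + 1)
    have h2 := hFb (l + N)
    have h3 := E.pos (l + N + g * r)
    have h4 := E.pos (l + N + g * r + 1)
    have h5 := E.Dl (l + N + g * r)
    calc |F (l + N + 1) * D (l + N + g * r) - F (l + N) * D (l + N + g * r + 1)|
        ≤ |F (l + N + 1) * D (l + N + g * r)| + |F (l + N) * D (l + N + g * r + 1)| := abs_sub _ _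
      _ = |F (l + N + 1)| * D (l + N + g * r) + |F (l + N)| * D (l + N + g * r + 1) := by
          rw [abs_mul (F (l + N + 1)), abs_mul (F (l + N)), abs_of_pos h3, abs_of_pos h4]
      _ ≤ (2 * H * B) * D (l + N + g * r) + (2 * H * B) * D (l + N + g * r) := by gcongr
      _ = 4 * H * B * A := by rw [hA]; ring
  have hYb : |Y0| ≤ 4 * H * B * A' := by
    simp only [hY0, hY]
    have h1 := hFb (l + 1)
    have h2 := hFb l
    have h3 := E.qnonneg (l + g * r)
    have h4 := E.qnonneg (l + g * r + 1)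
    have h5 := E.qlt (l + g * r)
    calc |q (l + g * r + 1) * F l - q (l + g * r) * F (l + 1)|
        ≤ |q (l + g * r + 1) * F l| + |q (l + g * r) * F (l + 1)| := abs_sub _ _
      _ = q (l + g * r + 1) * |F l| + q (l + g * r) * |F (l + 1)| := by
          rw [abs_mul _ (F l), abs_mul _ (F (l + 1)), abs_of_nonneg h3, abs_of_nonneg h4]
      _ ≤ q (l + g * r + 1) * (2 * H * B) + q (l + g * r + 1) * (2 * H * B) := by
          gcongr
          exact (E.qmono (Nat.lt_succ_self _)).le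
      _ = 4 * H * B * A' := by rw [hA']; ring
  have hrep : ∀ k, l ≤ k → k ≤ l + N → F k = q (k + g * r) * X0 + D (k + g * r) * Y0 ∧
      F (k + 1) = q (k + g * r + 1) * X0 + D (k + g * r + 1) * Y0 := by
    intro k hk1 hk2
    obtain ⟨i, rfl⟩ := Nat.exists_eq_add_of_le hk1
    obtain ⟨h1, h2⟩ := hconst i (by omega)
    rw [← h1, ← h2]
    simp only [hX, hY]
    have h3 := E.wron (l + i + g * r)
    constructor
    · linear_combination (-F (l + i)) * h3
    · linear_combination (-F (l + i + 1)) * h3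
  -- the growth estimates
  set G : ℝ := (c + 1) / c ^ 2 with hG
  have hG0 : 0 < G := by positivity
  have hG1 : (c + 1) / c ≤ G := by
    rw [hG]
    gcongr
    nlinarith
  have hup : ∀ k, (q (k + 1) : ℝ) * D k ≤ (c + 1) / c := by
    intro k
    have w1 := E.wron k
    have u0 := qd_upper hc E hbad k
    have n0 := E.qnonneg k
    have m0 := E.Dl k
    rw [le_div_iff₀ hc]
    have : (q k : ℝ) * D (k + 1) ≤ q k * D k := by gcongr
    nlinarith
  have hqA : c * (A' * A) ≤ (1 - c) ^ (R - (L + 1)) := by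
    have h1 := pow_decay hc E hbad hc1 (L + 1) (R - (L + 1))
    rw [show L + 1 + (R - (L + 1)) = R by omega] at h1
    exact h1
  have hqA' : A' * A ≤ c ^ 2 := by
    have h1 : (1 - c) ^ (R - (L + 1)) ≤ (1 - c) ^ (N - (g * r + 1)) :=
      pow_le_pow_of_le_one h1c h1c1 (by omega)
    have h2 := hqA.trans (h1.trans hs1)
    have h3 : c * (A' * A) ≤ c * c ^ 2 := by linarith [h2, (by ring : c ^ 3 = c * c ^ 2)]
    exact le_of_mul_le_mul_left h3 hc
  -- the balanced index
  have hexk : ∃ k, L ≤ k ∧ A' ≤ (q (k + 1) : ℝ) ^ 2 * A := by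
    refine ⟨R - 1, by omega, ?_⟩
    rw [show R - 1 + 1 = R by omega]
    have h1 : c ≤ (q R : ℝ) * A := by
      have := qd_lower E hbad (R - 1)
      rwa [show R - 1 + 1 = R by omega] at this
    have h2 : 0 < (q R : ℝ) := by
      by_contra hcon
      have : (q R : ℝ) * A ≤ 0 := mul_nonpos_of_nonpos_of_nonneg (not_lt.1 hcon) hA0.le
      linarith
    -- A' A ≤ c ^ 2 ≤ (q A) ^ 2
    have h3 : A' * A ≤ ((q R : ℝ) * A) ^ 2 := by nlinarith
    have h4 : A' * A ≤ ((q R : ℝ) ^ 2 * A) * A := by nlinarith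
    exact le_of_mul_le_mul_right h4 hA0
  classical
  set κ := Nat.find hexk with hκ
  obtain ⟨hκL, hκP⟩ := Nat.find_spec hexk
  rw [← hκ] at hκL hκP
  have hκle : κ ≤ R - 1 := Nat.find_min' hexk (by
    refine ⟨by omega, ?_⟩
    rw [show R - 1 + 1 = R by omega]
    have h1 : c ≤ (q R : ℝ) * A := by
      have := qd_lower E hbad (R - 1)
      rwa [show R - 1 + 1 = R by omega] at this
    have h3 : A' * A ≤ ((q R : ℝ) * A) ^ 2 := by nlinarith
    have h4 : A' * A ≤ ((q R : ℝ) ^ 2 * A) * A := by nlinarith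
    exact le_of_mul_le_mul_right h4 hA0)
  have hκgt : L < κ := by
    rcases Nat.lt_or_ge L κ with h | h
    · exact h
    · exfalso
      have h1 : κ = L := by omega
      rw [h1, ← hA'] at hκP
      have h2 : A' * (A' * A) ≤ A' * c ^ 2 := mul_le_mul_of_nonneg_left hqA' (by linarith)
      have h3 : c ^ 2 ≤ 1 / 4 := by nlinarith
      nlinarith
  have hκmin : (q κ : ℝ) ^ 2 * A < A' := by
    have h1 := Nat.find_min hexk (show κ - 1 < Nat.find hexk by omega)
    push Not at h1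
    have h2 := h1 (by omega)
    rwa [show κ - 1 + 1 = κ by omega] at h2
  have hqκ1 : (1 : ℝ) ≤ q (κ + 1) := by
    have h1 := E.qlt κ
    have h2 := E.qnonneg κ
    linarith
  have hqκ0 : (0 : ℝ) < q κ := by
    have h1 := E.qlt (κ - 1)
    have h2 := E.qnonneg (κ - 1)
    rw [show κ - 1 + 1 = κ by omega] at h1
    linarith
  have hDκ := E.pos κ
  have hratio : (q (κ + 1) : ℝ) ≤ G * q κ := by
    have h1 := hup κ
    have h2 : c ≤ (q κ : ℝ) * D κ := by
      have := qd_lower E hbad (κ - 1)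
      rwa [show κ - 1 + 1 = κ by omega] at this
    -- q' D ≤ (c+1)/c, D ≥ c / q
    have h3 : c * (q (κ + 1) : ℝ) ≤ (c + 1) / c * q κ := by
      calc c * (q (κ + 1) : ℝ) ≤ (q κ * D κ) * q (κ + 1) := by gcongr
        _ = (q (κ + 1) * D κ) * q κ := by ring
        _ ≤ (c + 1) / c * q κ := by gcongr
    have h4 : G * q κ = ((c + 1) / c * q κ) / c := by rw [hG]; field_simp
    rw [h4, le_div_iff₀ hc]
    linarith
  have hb1 : ((q (κ + 1) : ℝ) * A) ^ 2 ≤ G ^ 2 * (A * A') := by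
    calc ((q (κ + 1) : ℝ) * A) ^ 2 ≤ ((G * q κ) * A) ^ 2 := by gcongr
      _ = G ^ 2 * A * ((q κ : ℝ) ^ 2 * A) := by ring
      _ ≤ G ^ 2 * A * A' := by gcongr
      _ = _ := by ring
  have hb2 : (D κ * A') ^ 2 ≤ G ^ 2 * (A * A') := by
    have h1 := (hup κ).trans hG1
    calc (D κ * A') ^ 2 = (D κ ^ 2 * A') * A' := by ring
      _ ≤ (D κ ^ 2 * ((q (κ + 1) : ℝ) ^ 2 * A)) * A' := by gcongr
      _ = ((q (κ + 1) : ℝ) * D κ) ^ 2 * A * A' := by ring
      _ ≤ G ^ 2 * A * A' := by gcongr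
      _ = _ := by ring
  -- the size of `m`
  have hmA : (m : ℝ) * (A * A') ≤ 2 * H * (1 - c) ^ (N - (g * r + 1)) / c := by
    have h1 := step_sum hqH hb g w hw (l + 1) (by omega) (by omega) hlast
    rw [← ht, ← hS] at h1
    have h2 : |(S : ℝ)| * A' ≤ 2 * H * q (L + 1 + g * r) := by
      have h3 : |(S : ℝ) * q (l + 1 + g * r)| ≤ 2 * H * q (L + 1 + g * r) := by
        rw [← h1, abs_mul, abs_of_pos (by norm_num : (0 : ℝ) < 2), mul_assoc]
        refine mul_le_mul_of_nonneg_left ?_ (by norm_num)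
        rw [hH, Finset.sum_mul]
        refine (abs_sum_le_sum_abs _ _).trans (sum_le_sum fun j hj => ?_)
        rw [mem_range] at hj
        rw [abs_mul, abs_of_nonneg (E.qnonneg _)]
        refine mul_le_mul_of_nonneg_left ?_ (abs_nonneg _)
        have h4 : j * r ≤ 2 * g * r := Nat.mul_le_mul_right r (by omega)
        exact_mod_cast E.qmono.monotone (by omega : l + 1 + j * r ≤ L + 1 + g * r)
      rw [abs_mul, abs_of_nonneg (E.qnonneg _)] at h3
      rw [show L + 1 = l + 1 + g * r by omega] at h3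
      rw [hA', show L + 1 = l + 1 + g * r by omega]
      exact h3
    have h5 := pow_decay hc E hbad hc1 (L + 1 + g * r) (R - (L + 1 + g * r))
    rw [show L + 1 + g * r + (R - (L + 1 + g * r)) = R by omega,
      show R - (L + 1 + g * r) = N - (g * r + 1) by omega] at h5
    rw [hmS, le_div_iff₀ hc]
    calc |(S : ℝ)| * (A * A') * c = (|(S : ℝ)| * A') * (A * c) := by ring
      _ ≤ (2 * H * q (L + 1 + g * r)) * (A * c) := by gcongr
      _ = 2 * H * (c * (q (L + 1 + g * r) * A)) := by ring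
      _ ≤ _ := by gcongr
  -- the lattice point
  obtain ⟨x, y, hxy, hx, hy, hdvd⟩ := pigeon m hm1 (NN (κ - g * r)) (NN (κ - g * r + 1))
  set a : ℝ := (Nat.sqrt m : ℝ) with ha
  have ha0 : 0 ≤ a := by positivity
  have ham : a ^ 2 ≤ m := by
    have := Nat.sqrt_le' m
    rw [ha]
    exact_mod_cast this
  have hxa : |(x : ℝ)| ≤ a := by rw [ha]; exact_mod_cast hx
  have hya : |(y : ℝ)| ≤ a := by rw [ha]; exact_mod_cast hy
  obtain ⟨hr1, hr2⟩ := hrep (κ - g * r) (by omega) (by omega)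
  have hf1 := hFS (κ - g * r) (by omega) (by omega)
  have hf2 := hFS (κ - g * r + 1) (by omega) (by omega)
  rw [show κ - g * r + g * r = κ by omega] at hr1 hr2 hf1
  rw [show κ - g * r + 1 + g * r = κ + 1 by omega] at hf2
  set Q : ℤ := x * q κ + y * q (κ + 1) with hQ
  set Δ : ℝ := x * D κ + y * D (κ + 1) with hΔ
  have hmltq : (m : ℝ) < (q (κ + 1) : ℝ) ^ 2 := by
    have h1 : (m : ℝ) * (A * A') < 1 := by
      refine lt_of_le_of_lt hmA ?_
      rw [div_lt_one hc]
      exact hs2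
    have h2 : (m : ℝ) * A < 1 := by
      have : (m : ℝ) * A * 1 ≤ m * A * A' := by gcongr
      linarith
    have h3 : 1 ≤ (q (κ + 1) : ℝ) ^ 2 * A := hA'1.trans hκP
    have h4 : (m : ℝ) * A < (q (κ + 1) : ℝ) ^ 2 * A := by linarith
    exact lt_of_mul_lt_mul_right h4 hA0.le
  have hQ0 : Q ≠ 0 := by
    intro h0
    obtain ⟨p, -, -, hp⟩ := E.integ'
    have hcop : IsCoprime (q (κ + 1)) (q κ) := ⟨-p κ, p (κ + 1), by have := hp κ; linarith⟩
    have h1 : q (κ + 1) ∣ x * q κ := ⟨-y, by rw [hQ] at h0; linarith⟩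
    have h2 : q (κ + 1) ∣ x := hcop.dvd_of_dvd_mul_right h1
    have hx0 : x = 0 := by
      by_contra hne
      have h3 := Int.le_of_dvd (abs_pos.2 hne) ((dvd_abs _ _).2 h2)
      have h4 : (q (κ + 1) : ℝ) ≤ a := by
        have : (q (κ + 1) : ℝ) ≤ |(x : ℝ)| := by exact_mod_cast h3
        linarith
      have h5 : (q (κ + 1) : ℝ) ^ 2 ≤ a ^ 2 := by gcongr
      linarith
    rw [hx0, zero_mul, zero_add] at hQ
    have hy0 : y = 0 := by
      rw [h0] at hQ
      rcases mul_eq_zero.1 hQ.symm with h | h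
      · exact h
      · rw [h] at hqκ1
        norm_num at hqκ1
    rcases hxy with h | h
    · exact h hx0
    · exact h hy0
  obtain ⟨v, hv⟩ := hdvd
  -- the nearest integer to `Q β`
  obtain ⟨σ, hσ, hσS⟩ : ∃ σ : ℤ, |(σ : ℝ)| = 1 ∧ (m : ℤ) = σ * S := by
    rcases lt_or_gt_of_ne hS0 with h | h
    · refine ⟨-1, by norm_num, ?_⟩
      rw [hm]
      omega
    · refine ⟨1, by norm_num, ?_⟩
      rw [hm]
      omega
  have hcomb : (S : ℝ) * (Q * β - ((σ * v : ℤ) : ℝ)) = x * F (κ - g * r) + y * F (κ - g * r + 1) := by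
    have h1 : ((x * NN (κ - g * r) + y * NN (κ - g * r + 1) : ℤ) : ℝ) = ((m * v : ℤ) : ℝ) := by
      rw [hv]
    rw [hf1, hf2, hQ]
    have h2 : ((m : ℤ) : ℝ) = σ * S := by rw [hσS]; push_cast; ring
    push_cast at h1 h2 ⊢
    rw [h2] at h1
    linear_combination h1
  have hcomb2 : x * F (κ - g * r) + y * F (κ - g * r + 1) = Q * X0 + Δ * Y0 := by
    rw [hr1, hr2, hQ, hΔ]
    push_cast
    ring
  obtain ⟨p, hp⟩ := E.integ
  have hΔα : (Q : ℝ) * α - ((x * p κ + y * p (κ + 1) : ℤ) : ℝ) = Δ := by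
    rw [hΔ, hp, hp, hQ]
    push_cast
    ring
  have hfin := int_prod hprod hQ0 (x * p κ + y * p (κ + 1)) (σ * v)
  rw [hΔα] at hfin
  have hmr : (1 : ℝ) ≤ m := by exact_mod_cast hm1
  have hmr0 : (0 : ℝ) < m := by linarith
  have hlast2 : |(Q : ℝ) * β - ((σ * v : ℤ) : ℝ)| = |(Q : ℝ) * X0 + Δ * Y0| / m := by
    rw [eq_div_iff hmr0.ne', ← hcomb2, ← hcomb, abs_mul, hmS]
    ring
  -- sizes
  have hqle : (q κ : ℝ) ≤ q (κ + 1) := by exact_mod_cast (E.qmono (Nat.lt_succ_self κ)).le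
  have hDle : D (κ + 1) ≤ D κ := (E.Dl κ).le
  have hDκ1 := E.pos (κ + 1)
  have hQb : |(Q : ℝ)| ≤ 2 * a * q (κ + 1) := by
    rw [hQ]
    push_cast
    calc |(x : ℝ) * q κ + y * q (κ + 1)| ≤ |(x : ℝ) * q κ| + |(y : ℝ) * q (κ + 1)| := abs_add_le _ _
      _ = |(x : ℝ)| * q κ + |(y : ℝ)| * q (κ + 1) := by
          rw [abs_mul, abs_mul, abs_of_pos hqκ0, abs_of_nonneg (by linarith : (0 : ℝ) ≤ q (κ + 1))]
      _ ≤ a * q (κ + 1) + a * q (κ + 1) := by gcongr
      _ = _ := by ring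
  have hΔb : |Δ| ≤ 2 * a * D κ := by
    rw [hΔ]
    calc |(x : ℝ) * D κ + y * D (κ + 1)| ≤ |(x : ℝ) * D κ| + |(y : ℝ) * D (κ + 1)| := abs_add_le _ _
      _ = |(x : ℝ)| * D κ + |(y : ℝ)| * D (κ + 1) := by
          rw [abs_mul, abs_mul, abs_of_pos hDκ, abs_of_pos hDκ1]
      _ ≤ a * D κ + a * D κ := by gcongr
      _ = _ := by ring
  set Z : ℝ := G * Real.sqrt (A * A') with hZ
  have hAA : 0 ≤ A * A' := mul_nonneg hA0.le (by linarith)
  have hZ0 : 0 ≤ Z := by positivity
  have hz1 : (q (κ + 1) : ℝ) * A ≤ Z := by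
    have h1 : ((q (κ + 1) : ℝ) * A) ^ 2 ≤ Z ^ 2 := by
      rw [hZ, mul_pow G, Real.sq_sqrt hAA]
      exact hb1
    exact le_of_sq_le_sq h1 hZ0
  have hz2 : D κ * A' ≤ Z := by
    have h1 : (D κ * A') ^ 2 ≤ Z ^ 2 := by
      rw [hZ, mul_pow G, Real.sq_sqrt hAA]
      exact hb2
    exact le_of_sq_le_sq h1 hZ0
  have hlin : |(Q : ℝ) * X0 + Δ * Y0| ≤ 16 * H * B * a * Z := by
    calc |(Q : ℝ) * X0 + Δ * Y0| ≤ |(Q : ℝ) * X0| + |Δ * Y0| := abs_add_le _ _
      _ = |(Q : ℝ)| * |X0| + |Δ| * |Y0| := by rw [abs_mul, abs_mul]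
      _ ≤ (2 * a * q (κ + 1)) * (4 * H * B * A) + (2 * a * D κ) * (4 * H * B * A') := by gcongr
      _ = 8 * H * B * a * (q (κ + 1) * A) + 8 * H * B * a * (D κ * A') := by ring
      _ ≤ 8 * H * B * a * Z + 8 * H * B * a * Z := by gcongr
      _ = _ := by ring
  have hkey : c ≤ 64 * H * B * G ^ 2 * (a * Real.sqrt (A * A')) := by
    rw [hlast2] at hfin
    refine hfin.trans ?_
    have h1 : |(Q : ℝ)| * |Δ| ≤ 4 * m * G := by
      calc |(Q : ℝ)| * |Δ| ≤ (2 * a * q (κ + 1)) * (2 * a * D κ) := by gcongr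
        _ = 4 * a ^ 2 * (q (κ + 1) * D κ) := by ring
        _ ≤ 4 * m * G := by
            gcongr
            exact (hup κ).trans hG1
    calc |(Q : ℝ)| * |Δ| * (|(Q : ℝ) * X0 + Δ * Y0| / m)
        ≤ (4 * m * G) * ((16 * H * B * a * Z) / m) := by gcongr
      _ = 64 * H * B * G * a * Z := by
          field_simp
          ring
      _ = 64 * H * B * G ^ 2 * (a * Real.sqrt (A * A')) := by rw [hZ]; ring
  have hsq : (a * Real.sqrt (A * A')) ^ 2 ≤ 2 * H * (1 - c) ^ (N - (g * r + 1)) / c := by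
    rw [mul_pow, Real.sq_sqrt hAA]
    refine le_trans ?_ hmA
    gcongr
  have h6 : c ^ 2 ≤ (64 * H * B * G ^ 2 * (a * Real.sqrt (A * A'))) ^ 2 := by gcongr
  have h7 : c ^ 2 ≤ (64 * H * B * G ^ 2) ^ 2 * (2 * H * (1 - c) ^ (N - (g * r + 1)) / c) := by
    refine h6.trans ?_
    rw [mul_pow]
    gcongr
  have h8 : c ^ 3 ≤ (64 * H * B * G ^ 2) ^ 2 * (2 * H * (1 - c) ^ (N - (g * r + 1))) := by
    have h9 := mul_le_mul_of_nonneg_right h7 hc.le
    have e1 : (64 * H * B * G ^ 2) ^ 2 * (2 * H * (1 - c) ^ (N - (g * r + 1)) / c) * c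
        = (64 * H * B * G ^ 2) ^ 2 * (2 * H * (1 - c) ^ (N - (g * r + 1))) := by
      field_simp
    rw [e1] at h9
    calc c ^ 3 = c ^ 2 * c := by ring
      _ ≤ _ := h9
  linarith

end Pool.Agent.R329.LitRec
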