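import Pool.Agent.W13.LM.Digits
import Pool.Agent.W13.LM.Scale

/-! # Codes of pairs with reciprocal linear recurrences -/

set_option autoImplicit false

open Finset

namespace Pool.Agent.R329.LitRec

open Pool.Agent.W13.LM

/-- the product of the matrices `(0, 1; -1, b (l + j + 1))`, `j < i` -/
def Pm (b : ℕ → ℤ) (l : ℕ) : ℕ → Matrix (Fin 2) (Fin 2) ℤ
  | 0 => 1
  | i + 1 => !![0, 1; -1, b (l + i + 1)] * Pm b l i

/-- `τ i = λ ^ i + λ ^ (-i)` -/
def tau (t : ℤ) : ℕ → ℤ
  | 0 => 2
  | 1 => t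
  | i + 2 => t * tau t (i + 1) - tau t i

/-- `u` solves the homogeneous recurrence for the indices in `[l, r)` -/
def Hom (b : ℕ → ℤ) (u : ℕ → ℝ) (l r : ℕ) : Prop :=
  ∀ k, l ≤ k → k < r → u (k + 2) = b (k + 1) * u (k + 1) - u k

lemma Pm_det (b : ℕ → ℤ) (l i : ℕ) : (Pm b l i).det = 1 := by
  induction i with
  | zero => simp [Pm]
  | succ i ih => rw [Pm, Matrix.det_mul, ih, Matrix.det_fin_two]; simp

lemma Pm_vec {b : ℕ → ℤ} {u : ℕ → ℝ} {l r : ℕ} (h : Hom b u l r) (i : ℕ) (hi : l + i ≤ r) :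
    u (l + i) = (Pm b l i 0 0 : ℝ) * u l + (Pm b l i 0 1 : ℝ) * u (l + 1) ∧
    u (l + i + 1) = (Pm b l i 1 0 : ℝ) * u l + (Pm b l i 1 1 : ℝ) * u (l + 1) := by
  induction i with
  | zero => simp [Pm]
  | succ i ih =>
    obtain ⟨h1, h2⟩ := ih (by omega)
    have e00 : Pm b l (i + 1) 0 0 = Pm b l i 1 0 := by
      simp [Pm, Matrix.mul_apply, Fin.sum_univ_two]
    have e01 : Pm b l (i + 1) 0 1 = Pm b l i 1 1 := by
      simp [Pm, Matrix.mul_apply, Fin.sum_univ_two]
    have e10 : Pm b l (i + 1) 1 0 = - Pm b l i 0 0 + b (l + i + 1) * Pm b l i 1 0 := by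
      simp [Pm, Matrix.mul_apply, Fin.sum_univ_two]
    have e11 : Pm b l (i + 1) 1 1 = - Pm b l i 0 1 + b (l + i + 1) * Pm b l i 1 1 := by
      simp [Pm, Matrix.mul_apply, Fin.sum_univ_two]
    rw [e00, e01, e10, e11]
    constructor
    · rw [← h2]; rfl
    · have h3 := h (l + i) (by omega) (by omega)
      rw [show l + (i + 1) + 1 = l + i + 2 by ring, h3, h1, h2]
      push_cast
      ring

lemma Pm_congr {b : ℕ → ℤ} {l r : ℕ} (i : ℕ) (h : ∀ j, j < i → b (l + r + j + 1) = b (l + j + 1)) :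
    Pm b (l + r) i = Pm b l i := by
  induction i with
  | zero => rfl
  | succ i ih => rw [Pm, Pm, ih fun j hj => h j (by omega), h i (by omega)]

lemma CH (M : Matrix (Fin 2) (Fin 2) ℤ) (h : M.det = 1) : M * M = M.trace • M - 1 := by
  rw [Matrix.det_fin_two] at h
  ext i j
  rw [Matrix.sub_apply, Matrix.smul_apply, Matrix.mul_apply, Fin.sum_univ_two,
    Matrix.trace_fin_two, smul_eq_mul]
  have h00 : (1 : Matrix (Fin 2) (Fin 2) ℤ) 0 0 = 1 := rfl
  have h01 : (1 : Matrix (Fin 2) (Fin 2) ℤ) 0 1 = 0 := rfl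
  have h10 : (1 : Matrix (Fin 2) (Fin 2) ℤ) 1 0 = 0 := rfl
  have h11 : (1 : Matrix (Fin 2) (Fin 2) ℤ) 1 1 = 1 := rfl
  fin_cases i <;> fin_cases j
  · show M 0 0 * M 0 0 + M 0 1 * M 1 0 = (M 0 0 + M 1 1) * M 0 0 - (1 : Matrix (Fin 2) (Fin 2) ℤ) 0 0
    rw [h00]
    linear_combination (-1) * h
  · show M 0 0 * M 0 1 + M 0 1 * M 1 1 = (M 0 0 + M 1 1) * M 0 1 - (1 : Matrix (Fin 2) (Fin 2) ℤ) 0 1
    rw [h01]
    ring
  · show M 1 0 * M 0 0 + M 1 1 * M 1 0 = (M 0 0 + M 1 1) * M 1 0 - (1 : Matrix (Fin 2) (Fin 2) ℤ) 1 0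
    rw [h10]
    ring
  · show M 1 0 * M 0 1 + M 1 1 * M 1 1 = (M 0 0 + M 1 1) * M 1 1 - (1 : Matrix (Fin 2) (Fin 2) ℤ) 1 1
    rw [h11]
    linear_combination (-1) * h

/-- the recurrence with step `r` -/
lemma step_r {b : ℕ → ℤ} {u : ℕ → ℝ} {l e r : ℕ} (h : Hom b u l e)
    (hb : ∀ k, l ≤ k → k + r < e → b (k + r + 1) = b (k + 1)) (hle : l + 2 * r ≤ e) (k : ℕ)
    (hk : l ≤ k) (hke : k + 2 * r ≤ e + 1) :
    u (k + 2 * r) + u k = ((Pm b l r).trace : ℝ) * u (k + r) := by
  set t : ℤ := (Pm b l r).trace with ht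
  -- the two initial values
  have h0 := Pm_vec h r (by omega)
  have h1 : Hom b u (l + r) e := fun k h1 h2 => h k (by omega) h2
  have h2 := Pm_vec h1 r (by omega)
  rw [Pm_congr r (by
    intro j hj
    have := hb (l + j) (by omega) (by omega)
    rw [show l + r + j + 1 = l + j + r + 1 by ring, this])] at h2
  have hCH := CH _ (Pm_det b l r)
  rw [← ht] at hCH
  have c00 := congrFun (congrFun hCH 0) 0
  have c01 := congrFun (congrFun hCH 0) 1
  have c10 := congrFun (congrFun hCH 1) 0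
  have c11 := congrFun (congrFun hCH 1) 1
  rw [Matrix.mul_apply, Fin.sum_univ_two, Matrix.sub_apply, Matrix.smul_apply, smul_eq_mul]
    at c00 c01 c10 c11
  rw [show (1 : Matrix (Fin 2) (Fin 2) ℤ) 0 0 = 1 from rfl] at c00
  rw [show (1 : Matrix (Fin 2) (Fin 2) ℤ) 0 1 = 0 from rfl] at c01
  rw [show (1 : Matrix (Fin 2) (Fin 2) ℤ) 1 0 = 0 from rfl] at c10
  rw [show (1 : Matrix (Fin 2) (Fin 2) ℤ) 1 1 = 1 from rfl] at c11
  have d00 : ((Pm b l r 0 0 : ℝ)) * (Pm b l r 0 0) + (Pm b l r 0 1) * (Pm b l r 1 0)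
      = t * (Pm b l r 0 0) - 1 := by exact_mod_cast c00
  have d01 : ((Pm b l r 0 0 : ℝ)) * (Pm b l r 0 1) + (Pm b l r 0 1) * (Pm b l r 1 1)
      = t * (Pm b l r 0 1) - 0 := by exact_mod_cast c01
  have d10 : ((Pm b l r 1 0 : ℝ)) * (Pm b l r 0 0) + (Pm b l r 1 1) * (Pm b l r 1 0)
      = t * (Pm b l r 1 0) - 0 := by exact_mod_cast c10
  have d11 : ((Pm b l r 1 0 : ℝ)) * (Pm b l r 0 1) + (Pm b l r 1 1) * (Pm b l r 1 1)
      = t * (Pm b l r 1 1) - 1 := by exact_mod_cast c11
  have i0 : u (l + 2 * r) + u l = t * u (l + r) := by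
    rw [show l + 2 * r = l + r + r by ring, h2.1, h0.2, h0.1]
    linear_combination (u l) * d00 + (u (l + 1)) * d01
  have i1 : u (l + 1 + 2 * r) + u (l + 1) = t * u (l + 1 + r) := by
    rw [show l + 1 + 2 * r = l + r + r + 1 by ring, h2.2, show l + 1 + r = l + r + 1 by ring,
      h0.2, h0.1]
    linear_combination (u l) * d10 + (u (l + 1)) * d11
  -- induction
  have key : ∀ i, l + i + 2 * r ≤ e → (u (l + i + 2 * r) + u (l + i) = t * u (l + i + r) ∧
      u (l + i + 1 + 2 * r) + u (l + i + 1) = t * u (l + i + 1 + r)) := by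
    intro i
    induction i with
    | zero => intro _; exact ⟨i0, i1⟩
    | succ i ih =>
      intro hi
      obtain ⟨j0, j1⟩ := ih (by omega)
      refine ⟨j1, ?_⟩
      have a0 := h (l + i) (by omega) (by omega)
      have a1 := h (l + i + r) (by omega) (by omega)
      have a2 := h (l + i + 2 * r) (by omega) (by omega)
      have b1 := hb (l + i) (by omega) (by omega)
      have b2 := hb (l + i + r) (by omega) (by omega)
      rw [show l + i + r + r + 1 = l + i + 2 * r + 1 by ring] at b2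
      rw [b2, b1] at a2
      rw [b1] at a1
      rw [show l + (i + 1) + 1 + 2 * r = l + i + 2 * r + 2 by ring,
        show l + (i + 1) + 1 = l + i + 2 by ring,
        show l + i + 2 + r = l + i + r + 2 by ring, a2, a0, a1]
      rw [show l + i + 1 + 2 * r = l + i + 2 * r + 1 by ring,
        show l + i + 1 + r = l + i + r + 1 by ring] at j1
      linear_combination (b (l + i + 1) : ℝ) * j1 - j0
  rcases Nat.lt_or_ge e (k + 2 * r) with hc | hc
  · obtain ⟨i, rfl⟩ : ∃ i, k = l + i + 1 := ⟨k - l - 1, by omega⟩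
    exact (key i (by omega)).2
  · obtain ⟨i, rfl⟩ : ∃ i, k = l + i := ⟨k - l, by omega⟩
    exact (key i hc).1

/-- symmetric pairs -/
lemma step_tau {b : ℕ → ℤ} {u : ℕ → ℝ} {l e r : ℕ} (h : Hom b u l e)
    (hb : ∀ k, l ≤ k → k + r < e → b (k + r + 1) = b (k + 1)) (k : ℕ) (i : ℕ)
    (hk : l + i * r ≤ k) (hke : k + i * r ≤ e + 1) (hlast : i = 0 ∨ l + 2 * r ≤ e) :
    u (k + i * r) + u (k - i * r) = (tau (Pm b l r).trace i : ℝ) * u k := by
  set t : ℤ := (Pm b l r).trace with ht
  have key : ∀ i, (l + i * r ≤ k → k + i * r ≤ e + 1 → (i = 0 ∨ l + 2 * r ≤ e) →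
      u (k + i * r) + u (k - i * r) = (tau t i : ℝ) * u k) ∧
      (l + (i + 1) * r ≤ k → k + (i + 1) * r ≤ e + 1 → l + 2 * r ≤ e →
      u (k + (i + 1) * r) + u (k - (i + 1) * r) = (tau t (i + 1) : ℝ) * u k) := by
    intro i
    induction i with
    | zero =>
      refine ⟨fun _ _ _ => ?_, fun h1 h2 h3 => ?_⟩
      · simp only [tau]
        rw [Nat.zero_mul, Nat.add_zero, Nat.sub_zero]
        push_cast
        ring
      · simp only [tau]
        have h4 := step_r h hb h3 (k - r) (by omega) (by omega)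
        rw [← ht] at h4
        rw [show (0 + 1) * r = r by ring]
        rw [show k - r + 2 * r = k + r by omega, show k - r + r = k by omega] at h4
        exact h4
    | succ i ih =>
      refine ⟨fun h1 h2 h3 => ih.2 h1 h2 (by omega), fun h1 h2 h3 => ?_⟩
      have e1 : (i + 1 + 1) * r = i * r + 2 * r := by ring
      have e2 : (i + 1) * r = i * r + r := by ring
      have j1 := ih.2 (by omega) (by omega) h3
      have j0 := ih.1 (by omega) (by omega) (Or.inr h3)
      have s1 := step_r h hb h3 (k + i * r) (by omega) (by omega)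
      have s2 := step_r h hb h3 (k - (i + 1 + 1) * r) (by omega) (by omega)
      rw [← ht] at s1 s2
      rw [show k - (i + 1 + 1) * r + 2 * r = k - i * r by omega,
        show k - (i + 1 + 1) * r + r = k - (i + 1) * r by omega] at s2
      rw [show k + i * r + 2 * r = k + (i + 1 + 1) * r by omega,
        show k + i * r + r = k + (i + 1) * r by omega] at s1
      simp only [tau]
      push_cast
      linear_combination s1 + s2 + (t : ℝ) * j1 - j0
  exact (key i).1 hk hke hlast

/-- the symmetric recurrence on homogeneous solutions -/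
lemma step_sum {b : ℕ → ℤ} {u : ℕ → ℝ} {l e r : ℕ} (h : Hom b u l e)
    (hb : ∀ k, l ≤ k → k + r < e → b (k + r + 1) = b (k + 1)) (g : ℕ) (c : ℕ → ℤ)
    (hc : ∀ j, j ≤ 2 * g → c (2 * g - j) = c j) (k : ℕ) (hk : l ≤ k)
    (hke : k + 2 * g * r ≤ e + 1) (hlast : g = 0 ∨ l + 2 * r ≤ e) :
    2 * ∑ j ∈ range (2 * g + 1), (c j : ℝ) * u (k + j * r)
      = ((∑ j ∈ range (2 * g + 1), c j * tau (Pm b l r).trace ((g - j) + (j - g)) : ℤ) : ℝ)
        * u (k + g * r) := by
  have h1 : ∑ j ∈ range (2 * g + 1), (c j : ℝ) * u (k + j * r)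
      = ∑ j ∈ range (2 * g + 1), (c j : ℝ) * u (k + (2 * g - j) * r) := by
    rw [← Finset.sum_range_reflect]
    refine sum_congr rfl fun j hj => ?_
    rw [mem_range] at hj
    rw [show 2 * g + 1 - 1 - j = 2 * g - j by omega, hc j (by omega)]
  calc 2 * ∑ j ∈ range (2 * g + 1), (c j : ℝ) * u (k + j * r)
      = ∑ j ∈ range (2 * g + 1), (c j : ℝ) * u (k + j * r)
        + ∑ j ∈ range (2 * g + 1), (c j : ℝ) * u (k + (2 * g - j) * r) := by
        rw [← h1]; ring
    _ = ∑ j ∈ range (2 * g + 1), (c j : ℝ) * (u (k + j * r) + u (k + (2 * g - j) * r)) := by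
        rw [← sum_add_distrib]
        exact sum_congr rfl fun j _ => by ring
    _ = ∑ j ∈ range (2 * g + 1), (c j : ℝ) * ((tau (Pm b l r).trace ((g - j) + (j - g)) : ℝ)
          * u (k + g * r)) := by
        refine sum_congr rfl fun j hj => ?_
        rw [mem_range] at hj
        congr 1
        set i := (g - j) + (j - g) with hi
        have hig : i ≤ g := by omega
        have him : i * r ≤ g * r := Nat.mul_le_mul_right r hig
        have h2g : 2 * g * r = g * r + g * r := by ring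
        have h2 := step_tau h hb (k + g * r) i (by omega) (by omega) (by omega)
        rw [← h2]
        rcases Nat.le_total j g with hjg | hjg
        · have e1 : i = g - j := by omega
          have e2 : (2 * g - j) * r = g * r + i * r := by
            rw [← add_mul]; congr 1; omega
          have e3 : j * r + i * r = g * r := by
            rw [← add_mul]; congr 1; omega
          rw [show k + (2 * g - j) * r = k + g * r + i * r by omega,
            show k + j * r = k + g * r - i * r by omega]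
          ring
        · have e1 : i = j - g := by omega
          have e2 : j * r = g * r + i * r := by
            rw [← add_mul]; congr 1; omega
          have e3 : (2 * g - j) * r + i * r = g * r := by
            rw [← add_mul]; congr 1; omega
          rw [show k + j * r = k + g * r + i * r by omega,
            show k + (2 * g - j) * r = k + g * r - i * r by omega]
    _ = _ := by
        push_cast
        rw [Finset.sum_mul]
        exact sum_congr rfl fun j _ => by ring

/-- the symmetric recurrence on the powers of a matrix -/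
lemma mat_sum (M : Matrix (Fin 2) (Fin 2) ℤ) (hM : M.det = 1) (g : ℕ) (c : ℕ → ℤ)
    (hc : ∀ j, j ≤ 2 * g → c (2 * g - j) = c j) :
    (2 : ℤ) • ∑ j ∈ range (2 * g + 1), c j • M ^ j
      = (∑ j ∈ range (2 * g + 1), c j * tau M.trace ((g - j) + (j - g))) • M ^ g := by
  have hCH := CH M hM
  have hpow : ∀ i k : ℕ, i ≤ k → M ^ (k + i) + M ^ (k - i) = tau M.trace i • M ^ k := by
    intro i
    have key : ∀ i, (∀ k, i ≤ k → M ^ (k + i) + M ^ (k - i) = tau M.trace i • M ^ k) ∧
        (∀ k, i + 1 ≤ k → M ^ (k + (i + 1)) + M ^ (k - (i + 1)) = tau M.trace (i + 1) • M ^ k) := by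
      intro i
      induction i with
      | zero =>
        refine ⟨fun k _ => ?_, fun k hk => ?_⟩
        · simp only [tau, Nat.add_zero, Nat.sub_zero]
          rw [two_smul]
        · simp only [tau, zero_add]
          obtain ⟨m, rfl⟩ : ∃ m, k = m + 1 := ⟨k - 1, by omega⟩
          rw [show m + 1 - 1 = m by omega, show m + 1 + 1 = m + 2 by ring, pow_add M m 2, sq, hCH,
            mul_sub, mul_one, Matrix.mul_smul, ← pow_succ]
          abel
      | succ i ih =>
        refine ⟨ih.2, fun k hk => ?_⟩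
        have j1 := ih.2 k (by omega)
        have j0 := ih.1 k (by omega)
        have a1 : M ^ (k + (i + 1 + 1)) = M.trace • M ^ (k + (i + 1)) - M ^ (k + i) := by
          rw [show k + (i + 1 + 1) = (k + i) + 2 by ring, pow_add M (k + i) 2, sq, hCH, mul_sub,
            mul_one, Matrix.mul_smul, ← pow_succ]
          rfl
        have a2 : M ^ (k - i) = M.trace • M ^ (k - (i + 1)) - M ^ (k - (i + 1 + 1)) := by
          obtain ⟨m, rfl⟩ : ∃ m, k = m + (i + 1 + 1) := ⟨k - (i + 1 + 1), by omega⟩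
          rw [show m + (i + 1 + 1) - i = m + 2 by omega,
            show m + (i + 1 + 1) - (i + 1) = m + 1 by omega,
            show m + (i + 1 + 1) - (i + 1 + 1) = m by omega, pow_add M m 2, sq, hCH, mul_sub,
            mul_one, Matrix.mul_smul, ← pow_succ]
        have a3 : M ^ (k - (i + 1 + 1)) = M.trace • M ^ (k - (i + 1)) - M ^ (k - i) := by
          rw [a2]; abel
        simp only [tau]
        rw [a1, a3, sub_smul, mul_smul, ← j1, ← j0, smul_add]
        abel
    exact (key i).1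
  have h1 : ∑ j ∈ range (2 * g + 1), c j • M ^ j
      = ∑ j ∈ range (2 * g + 1), c j • M ^ (2 * g - j) := by
    rw [← Finset.sum_range_reflect]
    refine sum_congr rfl fun j hj => ?_
    rw [mem_range] at hj
    rw [show 2 * g + 1 - 1 - j = 2 * g - j by omega, hc j (by omega)]
  rw [two_smul]
  nth_rewrite 2 [h1]
  rw [← sum_add_distrib, Finset.sum_smul]
  refine sum_congr rfl fun j hj => ?_
  rw [mem_range] at hj
  rw [← smul_add, mul_smul]
  congr 1
  rcases Nat.le_total j g with hjg | hjg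
  · rw [show (g - j) + (j - g) = g - j by omega, ← hpow (g - j) g (by omega),
      show g + (g - j) = 2 * g - j by omega, show g - (g - j) = j by omega]
    abel
  · rw [show (g - j) + (j - g) = j - g by omega, ← hpow (j - g) g (by omega),
      show g + (j - g) = j by omega, show g - (j - g) = 2 * g - j by omega]

/-- pigeonhole -/
lemma pigeon (m : ℕ) (hm : 1 ≤ m) (v w : ℤ) : ∃ x y : ℤ, (x ≠ 0 ∨ y ≠ 0) ∧
    |x| ≤ Nat.sqrt m ∧ |y| ≤ Nat.sqrt m ∧ (m : ℤ) ∣ x * v + y * w := by
  classical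
  set a := Nat.sqrt m with ha
  have hcard : (range m).card < (range (a + 1) ×ˢ range (a + 1)).card := by
    rw [card_range, card_product, card_range]
    exact Nat.lt_succ_sqrt m
  obtain ⟨p, hp, p', hp', hne, he⟩ := Finset.exists_ne_map_eq_of_card_lt_of_maps_to hcard
    (f := fun p : ℕ × ℕ => (((p.1 : ℤ) * v + p.2 * w) % m).toNat) (by
      intro p _
      have h0 : (0 : ℤ) < m := by exact_mod_cast hm
      have h1 := Int.emod_nonneg ((p.1 : ℤ) * v + p.2 * w) h0.ne'
      have h2 := Int.emod_lt_of_pos ((p.1 : ℤ) * v + p.2 * w) h0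
      rw [Finset.mem_coe, mem_range]
      show (((p.1 : ℤ) * v + p.2 * w) % m).toNat < m
      omega)
  rw [mem_product, mem_range, mem_range] at hp hp'
  refine ⟨(p.1 : ℤ) - p'.1, (p.2 : ℤ) - p'.2, ?_, ?_, ?_, ?_⟩
  · by_contra hcon
    push Not at hcon
    apply hne
    ext
    · have := hcon.1; omega
    · have := hcon.2; omega
  · rw [abs_le]; constructor <;> omega
  · rw [abs_le]; constructor <;> omega
  · have h0 : (0 : ℤ) < m := by exact_mod_cast hm
    have h1 := Int.emod_nonneg ((p.1 : ℤ) * v + p.2 * w) h0.ne'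
    have h2 := Int.emod_nonneg ((p'.1 : ℤ) * v + p'.2 * w) h0.ne'
    have h3 : ((p.1 : ℤ) * v + p.2 * w) % m = ((p'.1 : ℤ) * v + p'.2 * w) % m := by
      have he' : (((p.1 : ℤ) * v + p.2 * w) % m).toNat
        = (((p'.1 : ℤ) * v + p'.2 * w) % m).toNat := he
      omega
    have h4 : ((p'.1 : ℤ) * v + p'.2 * w) ≡ ((p.1 : ℤ) * v + p.2 * w) [ZMOD m] := h3.symm
    have h5 := Int.modEq_iff_dvd.1 h4
    rw [show ((p.1 : ℤ) - p'.1) * v + ((p.2 : ℤ) - p'.2) * w
      = ((p.1 : ℤ) * v + p.2 * w) - ((p'.1 : ℤ) * v + p'.2 * w) by ring]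
    exact h5

lemma int_prod {α β c : ℝ}
    (hprod : ∀ q : ℕ, 0 < q → c ≤ (q : ℝ) * |(q : ℝ) * α - (round ((q : ℝ) * α) : ℝ)|
      * |(q : ℝ) * β - (round ((q : ℝ) * β) : ℝ)|) {Q : ℤ} (hQ : Q ≠ 0) (P P' : ℤ) :
    c ≤ |(Q : ℝ)| * |Q * α - P| * |Q * β - P'| := by
  have main : ∀ {Q : ℤ} (_ : 0 < Q) (P P' : ℤ), c ≤ |(Q : ℝ)| * |Q * α - P| * |Q * β - P'| := by
    intro Q hQ P P'
    obtain ⟨k, rfl⟩ := Int.eq_ofNat_of_zero_le hQ.le
    have h1 := hprod k (by omega)
    have h2 := round_le ((k : ℝ) * α) P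
    have h3 := round_le ((k : ℝ) * β) P'
    rw [Int.cast_natCast, abs_of_nonneg (Nat.cast_nonneg k)]
    refine h1.trans ?_
    gcongr
  rcases lt_or_gt_of_ne hQ with h | h
  · have h1 := main (Q := -Q) (by omega) (-P) (-P')
    push_cast at h1
    rw [abs_neg, show -(Q : ℝ) * α - -P = -(Q * α - P) by ring,
      show -(Q : ℝ) * β - -P' = -(Q * β - P') by ring, abs_neg, abs_neg] at h1
    exact h1
  · exact main h P P'

lemma b_per {b : ℕ → ℤ} {l e r : ℕ}
    (hb : ∀ k, l ≤ k → k + r < e → b (k + r + 1) = b (k + 1)) (j : ℕ) (k : ℕ) (hk : l ≤ k)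
    (hke : k + j * r < e) : b (k + j * r + 1) = b (k + 1) := by
  induction j with
  | zero => simp
  | succ j ih =>
    have e1 : (j + 1) * r = j * r + r := by ring
    have h1 := hb (k + j * r) (by omega) (by omega)
    rw [show k + (j + 1) * r = k + j * r + r by omega, h1]
    exact ih (by omega)

end Pool.Agent.R329.LitRec
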