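import Pool.Agent.R329.LitRec

/-! # Codes with reciprocal linear recurrences: the main theorem -/

set_option autoImplicit false

open Finset

namespace Pool.Agent.R329.LitRec

open Pool.Agent.W13.LM

variable {α : ℝ} {a₀ : ℤ} {b q : ℕ → ℤ} {D : ℕ → ℝ}

theorem rec_lc (E : Exp α a₀ b q D) (β B : ℝ)
    (h : ∀ s : ℕ, ∃ (n : ℕ → ℤ) (g r l N : ℕ) (w : ℕ → ℤ),
      (∀ k, |(q k : ℝ) * β - n k| ≤ B) ∧
      (∀ j, j ≤ 2 * g → w (2 * g - j) = w j) ∧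
      g * r + s * (1 + Nat.log 2 (∑ j ∈ range (2 * g + 1), (w j).natAbs)) ≤ N ∧
      (∀ k, l ≤ k → k + r < l + 2 * g * r + N → b (k + r + 1) = b (k + 1)) ∧
      ∑ j ∈ range (2 * g + 1), w j • (Pm b l r) ^ j ≠ 0 ∧
      ∀ k, l ≤ k → k < l + N → ∑ j ∈ range (2 * g + 1), w j *
        (n (k + j * r + 2) + n (k + j * r) - b (k + j * r + 1) * n (k + j * r + 1)) = 0) :
    LC α β := by
  by_contra hcon
  obtain ⟨c, hc, hc1, hbad, hprod⟩ := bad_of_not_lc hcon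
  have h1c : 0 ≤ 1 - c := by linarith
  have h1c1 : 1 - c < 1 := by linarith
  set K : ℝ := 2 * (64 * B * ((c + 1) / c ^ 2) ^ 2) ^ 2 + 1 with hK
  have hK1 : 1 ≤ K := by
    rw [hK]
    nlinarith [sq_nonneg (64 * B * ((c + 1) / c ^ 2) ^ 2)]
  have hη : 0 < c ^ 3 / (2 * K) := by positivity
  obtain ⟨u, hu⟩ := exists_pow_lt_of_lt_one (by norm_num : (0 : ℝ) < 1 / 2) h1c1
  obtain ⟨v, hv⟩ := exists_pow_lt_of_lt_one hη h1c1
  obtain ⟨n, g, r, l, N, w, hn, hw, hN, hb, hM, hz⟩ := h (3 * u + v + 1)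
  set Λ : ℕ := 1 + Nat.log 2 (∑ j ∈ range (2 * g + 1), (w j).natAbs) with hΛ
  have hΛ1 : 1 ≤ Λ := by omega
  set H : ℝ := ∑ j ∈ range (2 * g + 1), |(w j : ℝ)| with hH
  have hH0 : 0 ≤ H := by rw [hH]; positivity
  have hHΛ : H ≤ 2 ^ Λ := by
    have h1 : ((∑ j ∈ range (2 * g + 1), (w j).natAbs : ℕ) : ℝ) = H := by
      rw [hH]
      push_cast
      refine sum_congr rfl fun j _ => ?_
      rw [Nat.cast_natAbs]
      push_cast
      rfl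
    have h2 : (∑ j ∈ range (2 * g + 1), (w j).natAbs) < 2 ^ Λ := by
      rw [hΛ, add_comm 1]
      exact Nat.lt_pow_succ_log_self (by norm_num) _
    rw [← h1]
    exact_mod_cast h2.le
  have hΛN : 3 * u * Λ + v ≤ N - (g * r + 1) := by
    have h1 : (3 * u + v + 1) * Λ = 3 * u * Λ + v * Λ + Λ := by ring
    have h2 : v * 1 ≤ v * Λ := Nat.mul_le_mul_left v hΛ1
    omega
  have hgN : g * r + 1 ≤ N := by
    have h1 : (3 * u + v + 1) * Λ = 3 * u * Λ + v * Λ + Λ := by ring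
    omega
  set P : ℝ := (1 - c) ^ (N - (g * r + 1)) with hP
  have hP0 : 0 ≤ P := by rw [hP]; positivity
  have h2Λ : (1 : ℝ) ≤ 2 ^ Λ := one_le_pow₀ (by norm_num)
  have hPb : (2 ^ Λ) ^ 3 * P ≤ c ^ 3 / (2 * K) := by
    have h1 : P ≤ (1 - c) ^ (3 * u * Λ + v) := pow_le_pow_of_le_one h1c h1c1.le hΛN
    have h2 : (1 - c) ^ (3 * u * Λ + v) = (((1 - c) ^ u) ^ Λ) ^ 3 * (1 - c) ^ v := by
      rw [pow_add, ← pow_mul, ← pow_mul]
      congr 2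
      ring
    have h3 : (2 ^ Λ * ((1 - c) ^ u) ^ Λ) ≤ 1 := by
      rw [← mul_pow]
      apply pow_le_one₀ (by positivity)
      linarith
    have h4 : (2 ^ Λ * ((1 - c) ^ u) ^ Λ) ^ 3 ≤ 1 := pow_le_one₀ (by positivity) h3
    calc (2 ^ Λ) ^ 3 * P ≤ (2 ^ Λ) ^ 3 * ((((1 - c) ^ u) ^ Λ) ^ 3 * (1 - c) ^ v) := by
          rw [← h2]; gcongr
      _ = (2 ^ Λ * ((1 - c) ^ u) ^ Λ) ^ 3 * (1 - c) ^ v := by ring
      _ ≤ 1 * (1 - c) ^ v := by gcongr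
      _ ≤ _ := by rw [one_mul]; exact hv.le
  have hPη : P ≤ c ^ 3 / (2 * K) := by
    refine le_trans ?_ hPb
    have : (1 : ℝ) ≤ (2 ^ Λ) ^ 3 := one_le_pow₀ h2Λ
    nlinarith
  have hHP : H * P ≤ c ^ 3 / (2 * K) := by
    refine le_trans ?_ hPb
    have h1 : H ≤ (2 ^ Λ) ^ 3 := by
      refine hHΛ.trans ?_
      have : (1 : ℝ) ≤ (2 ^ Λ) ^ 2 := one_le_pow₀ h2Λ
      nlinarith
    gcongr
  have hH3P : H ^ 3 * P ≤ c ^ 3 / (2 * K) := by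
    refine le_trans ?_ hPb
    gcongr
  have hηc : c ^ 3 / (2 * K) ≤ c ^ 3 / 2 := by
    gcongr
    linarith
  have hc3 : 0 < c ^ 3 := by positivity
  have hc34 : c ^ 3 ≤ c / 4 := by
    have : c ^ 2 ≤ 1 / 4 := by nlinarith
    nlinarith
  refine one_window hc hc1 E hbad hprod B n hn g r l N w hw hgN hb hM hz H hH ?_ ?_ ?_
  · linarith
  · rw [← hP]
    nlinarith
  · rw [← hP]
    have e1 : (64 * H * B * ((c + 1) / c ^ 2) ^ 2) ^ 2 * (2 * H * P)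
        = 2 * (64 * B * ((c + 1) / c ^ 2) ^ 2) ^ 2 * (H ^ 3 * P) := by ring
    rw [e1]
    calc 2 * (64 * B * ((c + 1) / c ^ 2) ^ 2) ^ 2 * (H ^ 3 * P)
        ≤ 2 * (64 * B * ((c + 1) / c ^ 2) ^ 2) ^ 2 * (c ^ 3 / (2 * K)) := by gcongr
      _ ≤ K * (c ^ 3 / (2 * K)) := by
          gcongr
          rw [hK]
          linarith
      _ = c ^ 3 / 2 := by field_simp
      _ < c ^ 3 := by linarith

/-- the version for digit expansions `β = ∑ x k * D k` -/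
theorem rec_digits (E : Exp α a₀ b q D) (x : ℕ → ℤ) (B : ℝ) (hx : ∀ k, |(x k : ℝ)| ≤ B)
    (h : ∀ s : ℕ, ∃ (g r l N : ℕ) (w : ℕ → ℤ),
      (∀ j, j ≤ 2 * g → w (2 * g - j) = w j) ∧
      g * r + s * (1 + Nat.log 2 (∑ j ∈ range (2 * g + 1), (w j).natAbs)) ≤ N ∧
      (∀ k, l ≤ k → k + r < l + 2 * g * r + N → b (k + r + 1) = b (k + 1)) ∧
      ∑ j ∈ range (2 * g + 1), w j • (Pm b l r) ^ j ≠ 0 ∧
      ∀ k, l ≤ k → k < l + N → ∑ j ∈ range (2 * g + 1), w j * x (k + j * r + 1) = 0) :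
    LC α (∑' k, (x k : ℝ) * D k) := by
  by_contra hcon
  obtain ⟨c, hc, hc1, hbad, -⟩ := bad_of_not_lc hcon
  obtain ⟨p, hp, hpr, hw⟩ := E.integ'
  refine hcon (rec_lc E _ (2 * B / c ^ 2) ?_)
  intro s
  obtain ⟨g, r, l, N, w, h1, h2, h3, h4, h5⟩ := h s
  refine ⟨nn q p x, g, r, l, N, w, nn_bound hc E hbad hp x B hx, h1, h2, h3, h4, ?_⟩
  intro k hk1 hk2
  rw [← h5 k hk1 hk2]
  refine sum_congr rfl fun j _ => ?_
  rw [nn_rec E hpr hw]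

end Pool.Agent.R329.LitRec
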