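import Pool.Agent.R329.LitCodes

/-! # Littlewood's conjecture for pairs coded by rotations -/

set_option autoImplicit false

open MeasureTheory

namespace Pool.Agent.R329.LitCodes

/-- `F` has period one and is constant on all intervals which contain no element of `D + ℤ`. -/
structure Step {A : Type} (D : Finset ℝ) (F : ℝ → A) : Prop where
  per : ∀ y, F (y + 1) = F y
  const : ∀ u v : ℝ, u ≤ v → (∀ d ∈ D, ∀ m : ℤ, ¬ (u ≤ d + m ∧ d + m ≤ v)) → F u = F v

lemma Step.per_int {A : Type} {D : Finset ℝ} {F : ℝ → A} (S : Step D F) (y : ℝ) (m : ℤ) :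
    F (y + m) = F y := by
  have hnat : ∀ (n : ℕ) (z : ℝ), F (z + n) = F z := by
    intro n
    induction n with
    | zero => intro z; simp
    | succ n ih =>
      intro z
      push_cast
      rw [← add_assoc, S.per, ih]
  rcases Int.eq_nat_or_neg m with ⟨n, rfl | rfl⟩
  · exact_mod_cast hnat n y
  · have := hnat n (y + ((-(n : ℤ) : ℤ) : ℝ))
    rw [← this]
    congr 1
    push_cast
    ring

/-- forward orbits of irrational rotations visit all open sets -/
lemma visit {θ : ℝ} (hθ : Irrational θ) {U : Set UnitAddCircle} (hU : IsOpen U)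
    (hne : U.Nonempty) (x : ℝ) : ∃ j : ℕ, ((x + j * θ : ℝ) : UnitAddCircle) ∈ U := by
  have hd : DenseRange (fun k : ℤ => k • (θ : UnitAddCircle)) := by
    rw [AddCircle.denseRange_zsmul_coe_iff, div_one]
    exact hθ
  have hcov : ∀ z : UnitAddCircle, ∃ k : ℤ, z + k • (θ : UnitAddCircle) ∈ U := by
    intro z
    obtain ⟨w, hw⟩ := hne
    have hopen : IsOpen ((fun y => z + y) ⁻¹' U) := hU.preimage (continuous_const.add continuous_id)
    obtain ⟨k, hk⟩ := hd.exists_mem_open hopen ⟨w - z, by simpa using hw⟩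
    exact ⟨k, hk⟩
  obtain ⟨s, hs⟩ := isCompact_univ.elim_finite_subcover
    (fun k : ℤ => {z : UnitAddCircle | z + k • (θ : UnitAddCircle) ∈ U})
    (fun k => hU.preimage (continuous_id.add continuous_const)) (by
      intro z _
      obtain ⟨k, hk⟩ := hcov z
      exact Set.mem_iUnion.2 ⟨k, hk⟩)
  set M : ℤ := ∑ k ∈ s, |k| with hM
  have hMk : ∀ k ∈ s, |k| ≤ M := fun k hk =>
    Finset.single_le_sum (f := fun k : ℤ => |k|) (fun _ _ => abs_nonneg _) hk
  have hz := hs (Set.mem_univ ((x : UnitAddCircle) + M • (θ : UnitAddCircle)))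
  rw [Set.mem_iUnion₂] at hz
  obtain ⟨k, hk, hkU⟩ := hz
  have h1 : 0 ≤ M + k := by
    have := hMk k hk
    have := neg_abs_le k
    omega
  obtain ⟨j, hj⟩ := Int.eq_ofNat_of_zero_le h1
  refine ⟨j, ?_⟩
  have h2 : ((x + j * θ : ℝ) : UnitAddCircle)
      = (x : UnitAddCircle) + M • (θ : UnitAddCircle) + k • (θ : UnitAddCircle) := by
    rw [add_assoc, ← add_zsmul, hj]
    simp only [AddCircle.coe_add, natCast_zsmul]
    congr 1
    rw [← AddCircle.coe_nsmul, nsmul_eq_mul]
  rw [h2]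
  exact hkU

/-- blocks of matches in codings of rotations -/
lemma rot_block {A : Type} {θ : ℝ} (hθ : Irrational θ) {D : Finset ℝ} {F : ℝ → A} (S : Step D F)
    (n N : ℕ) (x : ℝ)
    (h : (D.card * N : ℝ) * |n * θ - (round (n * θ) : ℝ)| < 1) :
    ∃ u : ℕ, ∀ k, k < N → F (x + ((u + k + n : ℕ) : ℝ) * θ) = F (x + ((u + k : ℕ) : ℝ) * θ) := by
  classical
  set η : ℝ := n * θ - round (n * θ) with hη
  set B : Set UnitAddCircle := ⋃ d ∈ D, ⋃ k ∈ Finset.range N,
    Metric.closedBall (((d - k * θ - η / 2 : ℝ)) : UnitAddCircle) (|η| / 2) with hB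
  have hBm : volume B < 1 := by
    have h1 : volume B ≤ ∑ d ∈ D, ∑ k ∈ Finset.range N, volume
        (Metric.closedBall (((d - k * θ - η / 2 : ℝ)) : UnitAddCircle) (|η| / 2)) := by
      rw [hB]
      refine (measure_biUnion_finset_le _ _).trans (Finset.sum_le_sum fun d _ => ?_)
      exact measure_biUnion_finset_le _ _
    have h2 : ∀ z : UnitAddCircle, volume (Metric.closedBall z (|η| / 2)) ≤ ENNReal.ofReal |η| := by
      intro z
      rw [AddCircle.volume_closedBall]
      refine ENNReal.ofReal_le_ofReal ?_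
      rw [show 2 * (|η| / 2) = |η| by ring]
      exact min_le_right _ _
    refine lt_of_le_of_lt (h1.trans (Finset.sum_le_sum fun d _ => Finset.sum_le_sum fun k _ =>
      h2 _)) ?_
    rw [Finset.sum_const, Finset.sum_const, Finset.card_range, smul_smul, nsmul_eq_mul]
    have h3 : (((D.card * N : ℕ) : ENNReal)) * ENNReal.ofReal |η|
        = ENNReal.ofReal ((D.card * N : ℝ) * |η|) := by
      rw [ENNReal.ofReal_mul (by positivity)]
      congr 1
      rw [← Nat.cast_mul, ENNReal.ofReal_natCast]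
    rw [h3, ENNReal.ofReal_lt_one]
    exact h
  have hBc : IsClosed B := by
    rw [hB]
    refine D.finite_toSet.isClosed_biUnion fun d _ => ?_
    exact (Finset.range N).finite_toSet.isClosed_biUnion fun k _ => Metric.isClosed_closedBall
  have hne : (Bᶜ).Nonempty := by
    rw [Set.nonempty_compl]
    intro h0
    rw [h0, AddCircle.measure_univ, ENNReal.ofReal_one] at hBm
    exact lt_irrefl _ hBm
  obtain ⟨u, hu⟩ := visit hθ hBc.isOpen_compl hne x
  refine ⟨u, fun k hk => ?_⟩
  set p : ℝ := x + ((u + k : ℕ) : ℝ) * θ with hp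
  have e1 : x + ((u + k + n : ℕ) : ℝ) * θ = p + η + (round (n * θ) : ℤ) := by
    rw [hp, hη]
    push_cast
    ring
  rw [e1, S.per_int]
  have hno : ∀ d ∈ D, ∀ m : ℤ, |η| / 2 < |p + η / 2 - d - m| := by
    intro d hd m
    by_contra hcon
    push Not at hcon
    apply hu
    rw [hB]
    refine Set.mem_biUnion hd (Set.mem_biUnion (Finset.mem_coe.2 (Finset.mem_range.2 hk)) ?_)
    rw [Metric.mem_closedBall, dist_eq_norm, ← AddCircle.coe_sub, UnitAddCircle.norm_eq]
    refine (round_le _ m).trans (le_trans (le_of_eq ?_) hcon)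
    congr 1
    rw [hp]
    push_cast
    ring
  rcases le_total 0 η with h0 | h0
  · refine (S.const p (p + η) (by linarith) ?_).symm
    rintro d hd m ⟨h1, h2⟩
    have h3 := hno d hd m
    rw [abs_of_nonneg h0] at h3
    have h4 : |p + η / 2 - d - m| ≤ η / 2 := by
      rw [abs_le]; constructor <;> linarith
    linarith
  · refine S.const (p + η) p (by linarith) ?_
    rintro d hd m ⟨h1, h2⟩
    have h3 := hno d hd m
    rw [abs_of_nonpos h0] at h3
    have h4 : |p + η / 2 - d - m| ≤ -η / 2 := by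
      rw [abs_le]; constructor <;> linarith
    linarith

/-- **Rotations, regular continued fractions.** -/
theorem rot_code {θ : ℝ} (hθ : Irrational θ) {D : Finset ℝ} {F : ℝ → ℤ × ℤ} (S : Step D F)
    (X : ℝ) (hX : ∀ y, |((F y).2 : ℝ)| ≤ X)
    (h : ∀ s : ℕ, ∃ n : ℕ, 1 ≤ n ∧
      (D.card * (2 * n + s) : ℝ) * |n * θ - (round (n * θ) : ℝ)| < 1) (x : ℝ) :
    CodeLC (fun k => F (x + k * θ)) := by
  refine codeLC_of_blocks X (fun k => hX _) fun s => ?_
  obtain ⟨n, hn, hlt⟩ := h s
  obtain ⟨u, hu⟩ := rot_block hθ S n (2 * n + s) x (by push_cast; exact hlt)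
  refine ⟨n, u, 1, hn, Or.inl rfl, fun k hk => ?_⟩
  have h1 := hu k hk
  simp only [tw, one_mul]
  exact h1

/-- **Rotations, quadratic `α`.** -/
theorem rot_quad {θ : ℝ} (hθ : Irrational θ) {D : Finset ℝ} {F : ℝ → ℤ} (S : Step D F)
    (B : ℤ) (hB : ∀ y, |F y| ≤ B)
    (h : ∀ s : ℕ, ∃ n : ℕ, 1 ≤ n ∧
      (D.card * (n + s) : ℝ) * |n * θ - (round (n * θ) : ℝ)| < 2) (x : ℝ) :
    QuadLC (fun k => F (x + k * θ)) := by
  refine quadLC_of_blocks B (fun k => hB _) fun K => ?_
  obtain ⟨n, hn, hlt⟩ := h (K + 1)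
  obtain ⟨u, hu⟩ := rot_block hθ S n ((n + K + 1) / 2) x (by
    have h1 : (2 : ℝ) * (((n + K + 1) / 2 : ℕ) : ℝ) ≤ n + K + 1 := by
      have : 2 * ((n + K + 1) / 2) ≤ n + K + 1 := by omega
      exact_mod_cast this
    have h2 : 0 ≤ (D.card : ℝ) * |n * θ - (round (n * θ) : ℝ)| := by positivity
    push_cast at hlt
    nlinarith)
  refine ⟨u, n, (n + K + 1) / 2, 1, hn, by omega, Or.inl rfl, fun k hk => ?_⟩
  rw [one_mul]
  exact hu k hk

end Pool.Agent.R329.LitCodes
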