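import Mathlib

/-!
# Geometric progressions modulo one for Salem numbers

Helper file.  For a Salem number `α` the set of the values `limsup ‖ξ α ^ n‖` is, below a positive
bound, countable and dense.
-/

set_option autoImplicit false

open Filter Topology Polynomial

namespace Pool.Agent.R329.Salem

/-- distance to the nearest integer -/
noncomputable def nrm (x : ℝ) : ℝ := |x - round x|

/-- the set of the values `limsup ‖ξ α ^ n‖`, `ξ` real -/
noncomputable def spec (α : ℝ) : Set ℝ :=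
  {t | ∃ ξ : ℝ, t = limsup (fun n : ℕ => nrm (ξ * α ^ n)) atTop}

/-- Salem numbers -/
def IsSalem (α : ℝ) : Prop :=
  1 < α ∧ IsIntegral ℤ α ∧
    (∀ z : ℂ, aeval z (minpoly ℤ α) = 0 → z ≠ (α : ℂ) → ‖z‖ ≤ 1) ∧
    ∃ z : ℂ, aeval z (minpoly ℤ α) = 0 ∧ ‖z‖ = 1

lemma nrm_nonneg (x : ℝ) : 0 ≤ nrm x := abs_nonneg _

lemma nrm_le_half (x : ℝ) : nrm x ≤ 1 / 2 := abs_sub_round x

lemma nrm_le (x : ℝ) (m : ℤ) : nrm x ≤ |x - m| := round_le x m

lemma nrm_eq {x : ℝ} {m : ℤ} (h : |x - m| < 1 / 2) : nrm x = |x - m| := by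
  have h1 : round x = m := by
    have h2 := nrm_le_half x
    by_contra hne
    have h3 : (1 : ℝ) ≤ |((round x : ℤ) : ℝ) - m| := by
      have : round x - m ≠ 0 := sub_ne_zero.2 hne
      have := Int.one_le_abs this
      exact_mod_cast this
    have h4 : |((round x : ℤ) : ℝ) - m| ≤ |x - m| + |x - round x| := by
      have : ((round x : ℤ) : ℝ) - m = (x - m) - (x - round x) := by ring
      rw [this]
      exact abs_sub _ _
    unfold nrm at h2
    linarith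
  unfold nrm
  rw [h1]

lemma bdd (f : ℕ → ℝ) : IsBoundedUnder (· ≤ ·) atTop (fun n => nrm (f n)) :=
  isBoundedUnder_of ⟨1 / 2, fun _ => nrm_le_half _⟩

lemma cobdd (f : ℕ → ℝ) : IsCoboundedUnder (· ≤ ·) atTop (fun n => nrm (f n)) :=
  IsBoundedUnder.isCoboundedUnder_le (isBoundedUnder_of ⟨0, fun _ => nrm_nonneg _⟩)

/-- multiples -/
lemma limsup_mul (f : ℕ → ℝ) (k : ℕ) (hk : k * limsup (fun n => nrm (f n)) atTop < 1 / 2) :
    limsup (fun n => nrm (k * f n)) atTop = k * limsup (fun n => nrm (f n)) atTop := by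
  rcases Nat.eq_zero_or_pos k with h0 | hkpos
  · subst h0
    simp [nrm]
  have hk0 : (0 : ℝ) < k := by exact_mod_cast hkpos
  have h1 : limsup (fun n => nrm (f n)) atTop < 1 / (2 * k) := by
    rw [lt_div_iff₀ (by positivity)]
    linarith
  have h2 : ∀ᶠ n in atTop, nrm (f n) < 1 / (2 * k) := eventually_lt_of_limsup_lt h1 (bdd f)
  have h3 : (fun n => nrm (k * f n)) =ᶠ[atTop] fun n => k * nrm (f n) := by
    filter_upwards [h2] with n hn
    have h4 : |k * f n - ((k * round (f n) : ℤ) : ℝ)| = k * nrm (f n) := by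
      unfold nrm
      push_cast
      rw [← mul_sub, abs_mul, abs_of_pos hk0]
    have h5 : (k : ℝ) * nrm (f n) < 1 / 2 := by
      have h6 := mul_lt_mul_of_pos_left hn hk0
      have h7 : (k : ℝ) * (1 / (2 * k)) = 1 / 2 := by field_simp
      rwa [h7] at h6
    rw [← h4]
    exact nrm_eq (by rw [h4]; exact h5)
  rw [limsup_congr h3]
  have hmono : Monotone (fun x : ℝ => k * x) := fun x y h => mul_le_mul_of_nonneg_left h hk0.le
  have := hmono.map_limsup_of_continuousAt (F := atTop) (fun n => nrm (f n))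
    (by fun_prop) (bdd f) (cobdd f)
  exact this.symm

/-- an exponential polynomial with a coefficient of modulus one does not tend to zero -/
lemma not_tendsto {ι : Type*} [DecidableEq ι] (s : Finset ι) (c a : ι → ℂ)
    (ha : Set.InjOn a s) (j : ι) (hj : j ∈ s) (hc : c j ≠ 0) (haj : ‖a j‖ = 1) :
    ¬ Tendsto (fun n : ℕ => ∑ i ∈ s, c i * a i ^ n) atTop (𝓝 0) := by
  intro hlim
  set Q : ℂ[X] := ∏ i ∈ s.erase j, (X - C (a i)) with hQ
  have hQj : Q.eval (a j) ≠ 0 := by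
    rw [hQ, eval_prod, Finset.prod_ne_zero_iff]
    intro i hi
    rw [eval_sub, eval_X, eval_C, sub_ne_zero]
    intro h
    exact (Finset.ne_of_mem_erase hi) (ha (Finset.mem_of_mem_erase hi) hj h.symm)
  have hQi : ∀ i ∈ s, i ≠ j → Q.eval (a i) = 0 := by
    intro i hi hne
    rw [hQ, eval_prod]
    exact Finset.prod_eq_zero (Finset.mem_erase.2 ⟨hne, hi⟩) (by simp)
  have h1 : Tendsto (fun n : ℕ => ∑ m ∈ Finset.range (Q.natDegree + 1),
      Q.coeff m * ∑ i ∈ s, c i * a i ^ (n + m)) atTop (𝓝 0) := by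
    have : Tendsto (fun n : ℕ => ∑ m ∈ Finset.range (Q.natDegree + 1),
      Q.coeff m * ∑ i ∈ s, c i * a i ^ (n + m)) atTop
        (𝓝 (∑ m ∈ Finset.range (Q.natDegree + 1), Q.coeff m * 0)) := by
      refine tendsto_finsetSum _ fun m _ => Tendsto.const_mul _ ?_
      exact hlim.comp (tendsto_add_atTop_nat m)
    simpa using this
  have h2 : ∀ n : ℕ, ∑ m ∈ Finset.range (Q.natDegree + 1),
      Q.coeff m * ∑ i ∈ s, c i * a i ^ (n + m) = c j * a j ^ n * Q.eval (a j) := by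
    intro n
    simp_rw [Finset.mul_sum]
    rw [Finset.sum_comm]
    have h3 : ∀ i ∈ s, ∑ m ∈ Finset.range (Q.natDegree + 1), Q.coeff m * (c i * a i ^ (n + m)) =
        c i * a i ^ n * Q.eval (a i) := by
      intro i _
      rw [eval_eq_sum_range, Finset.mul_sum]
      refine Finset.sum_congr rfl fun m _ => ?_
      rw [pow_add]; ring
    rw [Finset.sum_congr rfl h3, Finset.sum_eq_single j]
    · intro i hi hne
      rw [hQi i hi hne, mul_zero]
    · intro h; exact absurd hj h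
  simp_rw [h2] at h1
  have h4 : Tendsto (fun n : ℕ => ‖c j * a j ^ n * Q.eval (a j)‖) atTop (𝓝 0) := by
    simpa using h1.norm
  have h5 : ∀ n : ℕ, ‖c j * a j ^ n * Q.eval (a j)‖ = ‖c j‖ * ‖Q.eval (a j)‖ := by
    intro n
    rw [norm_mul, norm_mul, norm_pow, haj, one_pow, mul_one]
  simp_rw [h5] at h4
  have h6 := tendsto_nhds_unique h4 tendsto_const_nhds
  have h7 : 0 < ‖c j‖ * ‖Q.eval (a j)‖ := mul_pos (norm_pos_iff.2 hc) (norm_pos_iff.2 hQj)
  linarith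

section field

open IntermediateField NumberField

variable {α : ℝ}

/-- there are arbitrarily small positive values -/
lemma exists_small (h : IsSalem α) (η : ℝ) (hη : 0 < η) : ∃ t ∈ spec α, 0 < t ∧ t < η := by
  classical
  obtain ⟨h1, hint, hconj, z, hz, hz1⟩ := h
  have hintQ : IsIntegral ℚ α := hint.tower_top
  have : FiniteDimensional ℚ ℚ⟮α⟯ := adjoin.finiteDimensional hintQ
  have : NumberField ℚ⟮α⟯ := { to_charZero := inferInstance, to_finiteDimensional := inferInstance }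
  -- the generator and the identical embedding
  obtain ⟨a₀, ha₀⟩ : ∃ a₀ : ℚ⟮α⟯, (a₀ : ℝ) = α := ⟨AdjoinSimple.gen ℚ α, AdjoinSimple.coe_gen ℚ α⟩
  obtain ⟨σ₁, hσ₁⟩ : ∃ σ₁ : ℚ⟮α⟯ →ₐ[ℚ] ℂ, ∀ x, σ₁ x = ((x : ℝ) : ℂ) :=
    ⟨((Complex.ofRealAm.restrictScalars ℚ).comp (ℚ⟮α⟯).val), fun x => rfl⟩
  have hpb : (adjoin.powerBasis hintQ).gen = a₀ := by
    rw [adjoin.powerBasis_gen]
    apply Subtype.ext
    rw [AdjoinSimple.coe_gen, ha₀]
  have hext : ∀ σ τ : ℚ⟮α⟯ →ₐ[ℚ] ℂ, σ a₀ = τ a₀ → σ = τ := by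
    intro σ τ hst
    apply (adjoin.powerBasis hintQ).algHom_ext
    rw [hpb]
    exact hst
  have ha₀int : IsIntegral ℤ a₀ := by
    have : IsIntegral ℤ ((ℚ⟮α⟯).val a₀) := by
      change IsIntegral ℤ (a₀ : ℝ)
      rw [ha₀]; exact hint
    exact (isIntegral_algHom_iff ((ℚ⟮α⟯).val.restrictScalars ℤ) (ℚ⟮α⟯).val.injective).1 this
  have hroot : ∀ σ : ℚ⟮α⟯ →ₐ[ℚ] ℂ, aeval (σ a₀) (minpoly ℤ α) = 0 := by
    intro σ
    have e1 : aeval a₀ (minpoly ℤ α) = 0 := by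
      apply Subtype.ext
      have e2 := minpoly.aeval ℤ α
      have e3 := Polynomial.aeval_algHom_apply ((ℚ⟮α⟯).val.restrictScalars ℤ) a₀ (minpoly ℤ α)
      have e4 : ((ℚ⟮α⟯).val.restrictScalars ℤ) a₀ = α := ha₀
      rw [e4, e2] at e3
      exact e3.symm
    have e5 := Polynomial.aeval_algHom_apply (σ.restrictScalars ℤ) a₀ (minpoly ℤ α)
    rw [e1, map_zero] at e5
    exact e5
  have hne : ∀ σ : ℚ⟮α⟯ →ₐ[ℚ] ℂ, σ ≠ σ₁ → σ a₀ ≠ (α : ℂ) := by
    intro σ hσ he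
    apply hσ
    apply hext
    rw [he, hσ₁, ha₀]
  obtain ⟨σ₂, hσ₂⟩ : ∃ σ₂ : ℚ⟮α⟯ →ₐ[ℚ] ℂ, σ₂ a₀ = z := by
    have e1 : aeval z (minpoly ℚ (adjoin.powerBasis hintQ).gen) = 0 := by
      rw [hpb]
      have e2 : minpoly ℚ a₀ = minpoly ℚ α := by
        have := minpoly.algebraMap_eq (A := ℚ) (B := ℚ⟮α⟯) (B' := ℝ)
          (algebraMap ℚ⟮α⟯ ℝ).injective a₀
        rw [← this]
        congr 1
      rw [e2, minpoly.isIntegrallyClosed_eq_field_fractions' ℚ hint, aeval_map_algebraMap]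
      exact hz
    refine ⟨(adjoin.powerBasis hintQ).lift z e1, ?_⟩
    conv_lhs => rw [← hpb]
    exact (adjoin.powerBasis hintQ).lift_gen z e1
  have hσ₂₁ : σ₂ ≠ σ₁ := by
    intro he
    rw [he, hσ₁, ha₀] at hσ₂
    rw [← hσ₂, Complex.norm_real, Real.norm_eq_abs, abs_of_pos (by linarith)] at hz1
    linarith
  -- the number `κ`
  set N : ℕ := (Finset.univ.erase σ₁ : Finset (ℚ⟮α⟯ →ₐ[ℚ] ℂ)).card with hN
  obtain ⟨δ, hδ0, hδ⟩ : ∃ δ : ℝ, 0 < δ ∧ N * δ < min η (1 / 2) := by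
    refine ⟨min η (1 / 2) / (N + 1), by positivity, ?_⟩
    rw [mul_div_assoc', div_lt_iff₀ (by positivity)]
    have : 0 < min η (1 / 2) := by positivity
    nlinarith
  obtain ⟨w₁, hw₁⟩ : ∃ w₁ : InfinitePlace ℚ⟮α⟯, w₁ = InfinitePlace.mk (σ₁ : ℚ⟮α⟯ →+* ℂ) := ⟨_, rfl⟩
  obtain ⟨κ, hκ0, hκ⟩ : ∃ κ : 𝓞 ℚ⟮α⟯, κ ≠ 0 ∧ ∀ w : InfinitePlace ℚ⟮α⟯, w ≠ w₁ → w κ < δ := by
    obtain ⟨B, hB⟩ : ∃ B : ℕ, mixedEmbedding.minkowskiBound ℚ⟮α⟯ ↑1 <
        (mixedEmbedding.convexBodyLTFactor ℚ⟮α⟯) * B := by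
      conv => congr; ext; rw [mul_comm]
      exact ENNReal.exists_nat_mul_gt (ENNReal.coe_ne_zero.mpr
        (mixedEmbedding.convexBodyLTFactor_ne_zero ℚ⟮α⟯))
        (ne_of_lt (mixedEmbedding.minkowskiBound_lt_top ℚ⟮α⟯ 1))
    obtain ⟨g, hg1, hg2⟩ := mixedEmbedding.adjust_f (K := ℚ⟮α⟯) (w₁ := w₁)
      (f := fun _ => (⟨δ, hδ0.le⟩ : NNReal)) (B : NNReal) (fun w _ h => by
        have h' : (⟨δ, hδ0.le⟩ : NNReal) = 0 := h
        exact hδ0.ne' (congrArg NNReal.toReal h'))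
    obtain ⟨y, hy0, hy⟩ := mixedEmbedding.exists_ne_zero_mem_ringOfIntegers_lt ℚ⟮α⟯ (f := g) (by
      rw [mixedEmbedding.convexBodyLT_volume]
      convert! hB
      exact congr_arg ((↑) : NNReal → ENNReal) hg2)
    refine ⟨y, hy0, fun w hw => ?_⟩
    have := hy w
    rw [hg1 w hw] at this
    exact this
  have hκ0' : (κ : ℚ⟮α⟯) ≠ 0 := RingOfIntegers.coe_ne_zero_iff.mpr hκ0
  have hsmall : ∀ σ : ℚ⟮α⟯ →ₐ[ℚ] ℂ, σ ≠ σ₁ → ‖σ (κ : ℚ⟮α⟯)‖ < δ := by
    intro σ hσ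
    have e1 := hκ (InfinitePlace.mk (σ : ℚ⟮α⟯ →+* ℂ)) (by
      intro he
      rw [hw₁, InfinitePlace.mk_eq_iff] at he
      apply hσ
      rcases he with he | he
      · apply AlgHom.ext
        intro x
        exact RingHom.congr_fun he x
      · apply AlgHom.ext
        intro x
        have e2 := RingHom.congr_fun he x
        have e3 : (starRingEnd ℂ) (σ x) = σ₁ x := e2
        rw [hσ₁] at e3 ⊢
        have e4 := congrArg (starRingEnd ℂ) e3
        rw [Complex.conj_conj, Complex.conj_ofReal] at e4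
        exact e4)
    rw [InfinitePlace.apply] at e1
    exact e1
  -- the integers
  have htr : ∀ n : ℕ, ∃ u : ℤ, (u : ℂ) = ∑ σ : ℚ⟮α⟯ →ₐ[ℚ] ℂ, σ ((κ : ℚ⟮α⟯) * a₀ ^ n) := by
    intro n
    have e1 : IsIntegral ℤ (Algebra.trace ℚ ℚ⟮α⟯ ((κ : ℚ⟮α⟯) * a₀ ^ n)) :=
      Algebra.isIntegral_trace (κ.isIntegral_coe.mul (ha₀int.pow n))
    obtain ⟨u, hu⟩ := IsIntegrallyClosed.isIntegral_iff.1 e1
    refine ⟨u, ?_⟩
    rw [← trace_eq_sum_embeddings ℂ, ← hu]
    simp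
  choose u hu using htr
  set E : ℕ → ℂ := fun n => ∑ σ ∈ Finset.univ.erase σ₁, σ (κ : ℚ⟮α⟯) * (σ a₀) ^ n with hE
  have hdiff : ∀ n : ℕ, (((((κ : ℚ⟮α⟯) : ℝ) * α ^ n - u n : ℝ)) : ℂ) = - E n := by
    intro n
    have e1 := hu n
    rw [← Finset.add_sum_erase _ _ (Finset.mem_univ σ₁), hσ₁] at e1
    have e2 : ∑ σ ∈ Finset.univ.erase σ₁, σ ((κ : ℚ⟮α⟯) * a₀ ^ n) = E n := by
      rw [hE]
      refine Finset.sum_congr rfl fun σ _ => ?_
      rw [map_mul, map_pow]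
    rw [e2] at e1
    have e3 : ((((κ : ℚ⟮α⟯) * a₀ ^ n : ℚ⟮α⟯) : ℝ)) = ((κ : ℚ⟮α⟯) : ℝ) * α ^ n := by
      push_cast
      rw [ha₀]
    rw [e3] at e1
    push_cast at e1 ⊢
    rw [e1]
    ring
  have hEbd : ∀ n : ℕ, ‖E n‖ ≤ N * δ := by
    intro n
    rw [hE]
    refine (norm_sum_le _ _).trans ?_
    rw [hN, ← nsmul_eq_mul]
    refine Finset.sum_le_card_nsmul _ _ _ fun σ hσ => ?_
    have hσ' := Finset.ne_of_mem_erase hσ
    rw [norm_mul, norm_pow]
    have e1 := hsmall σ hσ'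
    have e2 : ‖σ a₀‖ ≤ 1 := hconj _ (hroot σ) (hne σ hσ')
    have e3 : ‖σ a₀‖ ^ n ≤ 1 := pow_le_one₀ (norm_nonneg _) e2
    calc ‖σ (κ : ℚ⟮α⟯)‖ * ‖σ a₀‖ ^ n ≤ ‖σ (κ : ℚ⟮α⟯)‖ * 1 :=
          mul_le_mul_of_nonneg_left e3 (norm_nonneg _)
      _ ≤ δ := by rw [mul_one]; exact e1.le
  have habs : ∀ n : ℕ, |((κ : ℚ⟮α⟯) : ℝ) * α ^ n - u n| = ‖E n‖ := by
    intro n
    rw [← Real.norm_eq_abs, ← Complex.norm_real, hdiff n, norm_neg]
  have hnrm : ∀ n : ℕ, nrm (((κ : ℚ⟮α⟯) : ℝ) * α ^ n) = ‖E n‖ := by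
    intro n
    rw [nrm_eq (m := u n), habs n]
    rw [habs n]
    exact lt_of_le_of_lt (hEbd n) (lt_of_lt_of_le hδ (min_le_right _ _))
  refine ⟨limsup (fun n : ℕ => nrm (((κ : ℚ⟮α⟯) : ℝ) * α ^ n)) atTop, ⟨_, rfl⟩, ?_, ?_⟩
  · -- positivity
    have h0 : 0 ≤ limsup (fun n : ℕ => nrm (((κ : ℚ⟮α⟯) : ℝ) * α ^ n)) atTop := by
      refine le_limsup_of_frequently_le (Frequently.of_forall fun n => nrm_nonneg _) (bdd _)
    rcases h0.lt_or_eq with h0 | h0
    · exact h0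
    exfalso
    have hlim : Tendsto (fun n : ℕ => nrm (((κ : ℚ⟮α⟯) : ℝ) * α ^ n)) atTop (𝓝 0) := by
      rw [Metric.tendsto_atTop]
      intro ε hε
      have := eventually_lt_of_limsup_lt (u := fun n : ℕ => nrm (((κ : ℚ⟮α⟯) : ℝ) * α ^ n))
        (b := ε) (by rw [← h0]; exact hε) (bdd _)
      obtain ⟨M, hM⟩ := eventually_atTop.1 this
      refine ⟨M, fun n hn => ?_⟩
      rw [Real.dist_eq, sub_zero, abs_of_nonneg (nrm_nonneg _)]
      exact hM n hn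
    simp_rw [hnrm] at hlim
    have hlim2 : Tendsto E atTop (𝓝 0) := tendsto_zero_iff_norm_tendsto_zero.2 hlim
    refine not_tendsto (Finset.univ.erase σ₁) (fun σ : ℚ⟮α⟯ →ₐ[ℚ] ℂ => σ (κ : ℚ⟮α⟯))
      (fun σ => σ a₀) (fun σ _ τ _ hst => hext σ τ hst) σ₂
      (Finset.mem_erase.2 ⟨hσ₂₁, Finset.mem_univ _⟩) ?_ ?_ hlim2
    · exact (map_ne_zero_iff σ₂ σ₂.toRingHom.injective).2 hκ0'
    · rw [hσ₂]; exact hz1
  · refine lt_of_le_of_lt (b := N * δ) ?_ (lt_of_lt_of_le hδ (min_le_left _ _))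
    refine limsup_le_of_le (cobdd _) (Eventually.of_forall fun n => ?_)
    rw [hnrm]
    exact hEbd n

end field

/-- density -/
lemma dense (α : ℝ) (h : IsSalem α) : Set.Icc (0 : ℝ) (1 / 2) ⊆ closure (spec α) := by
  have h0 : Set.Ico (0 : ℝ) (1 / 2) ⊆ closure (spec α) := by
    intro y hy
    rw [Metric.mem_closure_iff]
    intro η hη
    obtain ⟨t, ⟨ξ, hξ⟩, ht0, htη⟩ := exists_small h η hη
    obtain ⟨k, hk⟩ : ∃ k : ℕ, k = ⌊y / t⌋₊ := ⟨_, rfl⟩
    have h1 : (k : ℝ) * t ≤ y := by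
      rw [hk, ← le_div_iff₀ ht0]
      exact Nat.floor_le (div_nonneg hy.1 ht0.le)
    have h2 : y < ((k : ℝ) + 1) * t := by
      rw [hk, ← div_lt_iff₀ ht0]
      exact Nat.lt_floor_add_one _
    refine ⟨k * t, ⟨k * ξ, ?_⟩, ?_⟩
    · rw [hξ] at h1 ⊢
      rw [← limsup_mul _ k (lt_of_le_of_lt h1 hy.2)]
      simp_rw [mul_assoc]
    · rw [Real.dist_eq, abs_of_nonneg (by linarith)]
      linarith
  have h1 : closure (Set.Ico (0 : ℝ) (1 / 2)) = Set.Icc 0 (1 / 2) :=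
    closure_Ico (by norm_num)
  rw [← h1]
  exact closure_minimal h0 isClosed_closure

/-- countability -/
lemma countable (α : ℝ) (h1 : 1 < α) (P : ℤ[X]) (hP : P.Monic) (hPα : aeval α P = 0) :
    (spec α ∩ Set.Iio (1 / ∑ i ∈ Finset.range (P.natDegree + 1), |(P.coeff i : ℝ)|)).Countable := by
  set S : ℝ := ∑ i ∈ Finset.range (P.natDegree + 1), |(P.coeff i : ℝ)| with hS
  have hS0 : 0 < S := by
    rw [hS]
    refine Finset.sum_pos' (fun _ _ => abs_nonneg _) ⟨P.natDegree, by simp, ?_⟩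
    rw [hP.coeff_natDegree]
    norm_num
  -- the good `ξ`
  set B : Set ℝ := {ξ | ∃ n₀ : ℕ, ∀ n ≥ n₀, nrm (ξ * α ^ n) < 1 / S} with hB
  have hrec : ∀ ξ : ℝ, ∀ n₀ : ℕ, (∀ n ≥ n₀, nrm (ξ * α ^ n) < 1 / S) → ∀ n ≥ n₀,
      ∑ i ∈ Finset.range (P.natDegree + 1), P.coeff i * round (ξ * α ^ (n + i)) = 0 := by
    intro ξ n₀ hξ n hn
    have e1 : ∑ i ∈ Finset.range (P.natDegree + 1), (P.coeff i : ℝ) * (ξ * α ^ (n + i)) = 0 := by
      have e2 : ∑ i ∈ Finset.range (P.natDegree + 1), (P.coeff i : ℝ) * α ^ i = 0 := by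
        rw [aeval_eq_sum_range] at hPα
        simpa [zsmul_eq_mul] using hPα
      calc _ = ξ * α ^ n * ∑ i ∈ Finset.range (P.natDegree + 1), (P.coeff i : ℝ) * α ^ i := by
            rw [Finset.mul_sum]
            refine Finset.sum_congr rfl fun i _ => ?_
            rw [pow_add]; ring
        _ = 0 := by rw [e2, mul_zero]
    have e3 : |((∑ i ∈ Finset.range (P.natDegree + 1),
        P.coeff i * round (ξ * α ^ (n + i)) : ℤ) : ℝ)| < 1 := by
      have e4 : ((∑ i ∈ Finset.range (P.natDegree + 1),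
          P.coeff i * round (ξ * α ^ (n + i)) : ℤ) : ℝ) =
          - ∑ i ∈ Finset.range (P.natDegree + 1),
            (P.coeff i : ℝ) * (ξ * α ^ (n + i) - round (ξ * α ^ (n + i))) := by
        push_cast
        simp_rw [mul_sub]
        rw [Finset.sum_sub_distrib, e1]
        ring
      rw [e4, abs_neg]
      refine lt_of_le_of_lt (Finset.abs_sum_le_sum_abs _ _) ?_
      have e5 : ∑ i ∈ Finset.range (P.natDegree + 1),
          |(P.coeff i : ℝ) * (ξ * α ^ (n + i) - round (ξ * α ^ (n + i)))| <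
          ∑ i ∈ Finset.range (P.natDegree + 1), |(P.coeff i : ℝ)| * (1 / S) := by
        refine Finset.sum_lt_sum (fun i _ => ?_) ⟨P.natDegree, by simp, ?_⟩
        · rw [abs_mul]
          exact mul_le_mul_of_nonneg_left (hξ (n + i) (by omega)).le (abs_nonneg _)
        · rw [abs_mul]
          refine mul_lt_mul_of_pos_left (hξ (n + P.natDegree) (by omega)) ?_
          rw [hP.coeff_natDegree]; norm_num
      refine e5.trans_le ?_
      rw [← Finset.sum_mul, ← hS, mul_one_div, div_self hS0.ne']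
    have e6 : |∑ i ∈ Finset.range (P.natDegree + 1), P.coeff i * round (ξ * α ^ (n + i))| < 1 := by
      exact_mod_cast e3
    exact Int.abs_lt_one_iff.1 e6
  have hBc : B.Countable := by
    have hn₀ : ∀ ξ : B, ∃ n₀ : ℕ, ∀ n ≥ n₀, nrm (ξ.1 * α ^ n) < 1 / S := fun ξ => ξ.2
    choose n₀ hn₀ using hn₀
    let F : B → ℕ × (Fin P.natDegree → ℤ) :=
      fun ξ => (n₀ ξ, fun i => round (ξ.1 * α ^ (n₀ ξ + i)))
    have hF : Function.Injective F := by
      intro ξ ζ hξζ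
      simp only [F, Prod.mk.injEq] at hξζ
      obtain ⟨e1, e2⟩ := hξζ
      have e3 : ∀ k : ℕ, round (ξ.1 * α ^ (n₀ ξ + k)) = round (ζ.1 * α ^ (n₀ ξ + k)) := by
        intro k
        induction k using Nat.strong_induction_on with
        | _ k ih =>
          rcases lt_or_ge k P.natDegree with hk | hk
          · have := congrFun e2 ⟨k, hk⟩
            simp only at this
            rw [this, e1]
          · obtain ⟨m, rfl⟩ := Nat.exists_eq_add_of_le' hk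
            have f1 := hrec ξ.1 (n₀ ξ) (hn₀ ξ) (n₀ ξ + m) (by omega)
            have f2 := hrec ζ.1 (n₀ ζ) (hn₀ ζ) (n₀ ξ + m) (by omega)
            rw [Finset.sum_range_succ, hP.coeff_natDegree, one_mul] at f1 f2
            have f3 : ∑ x ∈ Finset.range P.natDegree, P.coeff x * round (ξ.1 * α ^ (n₀ ξ + m + x)) =
                ∑ x ∈ Finset.range P.natDegree, P.coeff x * round (ζ.1 * α ^ (n₀ ξ + m + x)) := by
              refine Finset.sum_congr rfl fun x hx => ?_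
              rw [Finset.mem_range] at hx
              rw [add_assoc, ih (m + x) (by omega)]
            rw [f3] at f1
            rw [← add_assoc]
            linarith
      apply Subtype.ext
      by_contra hne
      have e4 : 0 < |ξ.1 - ζ.1| := abs_pos.2 (sub_ne_zero.2 hne)
      obtain ⟨k, hk⟩ := pow_unbounded_of_one_lt (2 / |ξ.1 - ζ.1|) h1
      have e5 : |ξ.1 * α ^ (n₀ ξ + k) - ζ.1 * α ^ (n₀ ξ + k)| ≤ 1 := by
        have g1 := nrm_le_half (ξ.1 * α ^ (n₀ ξ + k))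
        have g2 := nrm_le_half (ζ.1 * α ^ (n₀ ξ + k))
        unfold nrm at g1 g2
        rw [e3 k] at g1
        have g3 : ξ.1 * α ^ (n₀ ξ + k) - ζ.1 * α ^ (n₀ ξ + k) =
            (ξ.1 * α ^ (n₀ ξ + k) - round (ζ.1 * α ^ (n₀ ξ + k))) -
            (ζ.1 * α ^ (n₀ ξ + k) - round (ζ.1 * α ^ (n₀ ξ + k))) := by ring
        rw [g3]
        refine (abs_sub _ _).trans ?_
        linarith
      have hαk : 0 < α ^ (n₀ ξ + k) := by positivity
      rw [← sub_mul, abs_mul, abs_of_pos hαk, pow_add] at e5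
      rw [div_lt_iff₀ e4] at hk
      have e6 : 1 ≤ α ^ (n₀ ξ) := one_le_pow₀ h1.le
      have e7 : α ^ k ≤ α ^ (n₀ ξ) * α ^ k := by
        have : 0 < α ^ k := by positivity
        nlinarith
      nlinarith
    exact hF.countable
  refine (hBc.image (fun ξ : ℝ => limsup (fun n : ℕ => nrm (ξ * α ^ n)) atTop)).mono ?_
  rintro t ⟨⟨ξ, rfl⟩, ht⟩
  refine ⟨ξ, ?_, rfl⟩
  exact eventually_atTop.1 (eventually_lt_of_limsup_lt ht (bdd _))

theorem not_closed (α : ℝ) (h : IsSalem α) : ¬ IsClosed (spec α) := by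
  intro hcl
  have hP : (minpoly ℤ α).Monic := minpoly.monic h.2.1
  have h1 := countable α h.1 (minpoly ℤ α) hP (minpoly.aeval ℤ α)
  set S : ℝ := ∑ i ∈ Finset.range ((minpoly ℤ α).natDegree + 1), |((minpoly ℤ α).coeff i : ℝ)|
  have hS0 : 0 < S := by
    refine Finset.sum_pos' (fun _ _ => abs_nonneg _) ⟨(minpoly ℤ α).natDegree, by simp, ?_⟩
    rw [hP.coeff_natDegree]
    norm_num
  have h2 : Set.Ioo (0 : ℝ) (min (1 / 2) (1 / S)) ⊆ spec α ∩ Set.Iio (1 / S) := by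
    intro y hy
    refine ⟨?_, lt_of_lt_of_le hy.2 (min_le_right _ _)⟩
    have := dense α h ⟨hy.1.le, (lt_of_lt_of_le hy.2 (min_le_left _ _)).le⟩
    rwa [hcl.closure_eq] at this
  have h3 : (0 : ℝ) < min (1 / 2) (1 / S) := by positivity
  have h4 := (h1.mono h2).measure_zero MeasureTheory.volume
  rw [Real.volume_Ioo, sub_zero, ENNReal.ofReal_eq_zero] at h4
  linarith

end Pool.Agent.R329.Salem
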