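import Pool.Agent.R329.Salem

/-!
# A Salem number of degree four

Helper file: the largest root of `X ^ 4 - 4 X ^ 3 + 4 X ^ 2 - 4 X + 1` is a Salem number.
-/

set_option autoImplicit false

open Polynomial

namespace Pool.Agent.R329.Salem

/-- the polynomial -/
noncomputable def P4 : ℤ[X] := X ^ 4 - 4 * X ^ 3 + 4 * X ^ 2 - 4 * X + 1

lemma P4_monic : P4.Monic := by
  unfold P4
  monicity!

lemma P4_irreducible : Irreducible P4 := by
  have h1 : algEquivAevalXAddC (1 : ℤ) P4 = X ^ 4 - 2 * X ^ 2 - 4 * X - 2 := by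
    rw [algEquivAevalXAddC_apply]
    unfold P4
    simp only [map_add, map_sub, map_mul, map_pow, aeval_X, map_one, map_ofNat]
    ring
  have h2 : Irreducible (X ^ 4 - 2 * X ^ 2 - 4 * X - 2 : ℤ[X]) := by
    have hdeg : (X ^ 4 - 2 * X ^ 2 - 4 * X - 2 : ℤ[X]).natDegree = 4 := by
      compute_degree!
    have hmon : (X ^ 4 - 2 * X ^ 2 - 4 * X - 2 : ℤ[X]).Monic := by
      monicity!
    have hco : ∀ n, (X ^ 4 - 2 * X ^ 2 - 4 * X - 2 : ℤ[X]).coeff n =
        (if n = 4 then 1 else 0) - 2 * (if n = 2 then 1 else 0) - 4 * (if n = 1 then 1 else 0)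
          - (if n = 0 then 2 else 0) := by
      intro n
      have e2 : (2 : ℤ[X]) = C 2 := rfl
      have e4 : (4 : ℤ[X]) = C 4 := rfl
      rw [e2, e4, coeff_sub, coeff_sub, coeff_sub, coeff_C_mul, coeff_C_mul, coeff_X_pow,
        coeff_X_pow, coeff_X, coeff_C]
      simp only [eq_comm]
    have hprime : (Ideal.span {(2 : ℤ)}).IsPrime := by
      rw [Ideal.span_singleton_prime (by norm_num)]
      exact Int.prime_two
    apply irreducible_of_eisenstein_criterion hprime
    · rw [hmon.leadingCoeff, Ideal.mem_span_singleton]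
      norm_num
    · intro n hn
      rw [degree_eq_natDegree hmon.ne_zero, hdeg] at hn
      have hn' : n < 4 := by exact_mod_cast hn
      rw [hco, Ideal.mem_span_singleton]
      interval_cases n <;> norm_num
    · rw [degree_eq_natDegree hmon.ne_zero, hdeg]
      norm_num
    · rw [hco, Ideal.span_singleton_pow, Ideal.mem_span_singleton]
      norm_num
    · exact hmon.isPrimitive
  rw [← MulEquiv.irreducible_iff (algEquivAevalXAddC (1 : ℤ)), h1]
  exact h2

lemma P4_eval (z : ℂ) : aeval z P4 = z ^ 4 - 4 * z ^ 3 + 4 * z ^ 2 - 4 * z + 1 := by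
  unfold P4
  simp only [map_add, map_sub, map_mul, map_pow, aeval_X, map_one, map_ofNat]

lemma P4_evalR (z : ℝ) : aeval z P4 = z ^ 4 - 4 * z ^ 3 + 4 * z ^ 2 - 4 * z + 1 := by
  unfold P4
  simp only [map_add, map_sub, map_mul, map_pow, aeval_X, map_one, map_ofNat]

lemma P4_length : ∑ i ∈ Finset.range (P4.natDegree + 1), |(P4.coeff i : ℝ)| = 14 := by
  have hdeg : P4.natDegree = 4 := by
    unfold P4
    compute_degree!
  have e4 : (4 : ℤ[X]) = C 4 := rfl
  have e1 : (1 : ℤ[X]) = C 1 := rfl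
  have hco : ∀ n, P4.coeff n = (if n = 4 then 1 else 0) - 4 * (if n = 3 then 1 else 0)
      + 4 * (if n = 2 then 1 else 0) - 4 * (if n = 1 then 1 else 0)
        + (if n = 0 then 1 else 0) := by
    intro n
    unfold P4
    rw [e4, e1, coeff_add, coeff_sub, coeff_add, coeff_sub, coeff_C_mul, coeff_C_mul,
      coeff_C_mul, coeff_X_pow, coeff_X_pow, coeff_X_pow, coeff_X, coeff_C]
    simp only [eq_comm]
  rw [hdeg]
  simp only [Finset.sum_range_succ, Finset.sum_range_zero, hco]
  norm_num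

/-- a complex root of `z ^ 2 - s z + 1` with `s` real, `s ^ 2 < 4`, has modulus one -/
lemma norm_of_quad {s : ℝ} (hs : s ^ 2 < 4) {z : ℂ} (hz : z ^ 2 - s * z + 1 = 0) : ‖z‖ = 1 := by
  have hre := congrArg Complex.re hz
  have him := congrArg Complex.im hz
  simp [pow_two] at hre him
  have h1 : z.im * (2 * z.re - s) = 0 := by linarith
  have h2 : z.re * z.re + z.im * z.im = 1 := by
    rcases mul_eq_zero.1 h1 with h | h
    · exfalso
      rw [h] at hre
      nlinarith [sq_nonneg (2 * z.re - s)]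
    · have : s = 2 * z.re := by linarith
      rw [this] at hre
      nlinarith
  rw [Complex.norm_def, Complex.normSq_apply, h2, Real.sqrt_one]

/-- the number -/
noncomputable def α4 : ℝ := ((2 + √2) + √((2 + √2) ^ 2 - 4)) / 2

lemma sqrt2 : (√2 : ℝ) ^ 2 = 2 := Real.sq_sqrt (by norm_num)

lemma sqrt2_bd : (1.4 : ℝ) < √2 ∧ √2 < 1.5 := by
  constructor
  · rw [Real.lt_sqrt (by norm_num)]; norm_num
  · rw [Real.sqrt_lt' (by norm_num)]; norm_num

lemma α4_quad : α4 ^ 2 - (2 + √2) * α4 + 1 = 0 := by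
  have h1 : (0 : ℝ) ≤ (2 + √2) ^ 2 - 4 := by
    have := sqrt2_bd.1
    nlinarith
  have h2 := Real.sq_sqrt h1
  unfold α4
  nlinarith

lemma α4_gt : 1 < α4 := by
  have h := sqrt2_bd.1
  have h2 : 0 ≤ √((2 + √2) ^ 2 - 4) := Real.sqrt_nonneg _
  unfold α4
  linarith

lemma α4_root : aeval α4 P4 = 0 := by
  rw [P4_evalR]
  have h1 := α4_quad
  have h2 := sqrt2
  have h3 : α4 ^ 4 - 4 * α4 ^ 3 + 4 * α4 ^ 2 - 4 * α4 + 1 =
      (α4 ^ 2 - (2 + √2) * α4 + 1) * (α4 ^ 2 - (2 - √2) * α4 + 1) := by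
    linear_combination (α4 ^ 2) * h2
  rw [h3, h1, zero_mul]

lemma minpoly_α4 : minpoly ℤ α4 = P4 := by
  have hint : IsIntegral ℤ α4 := ⟨P4, P4_monic, by
    have := α4_root
    rwa [aeval_def] at this⟩
  have h1 := minpoly.isIntegrallyClosed_dvd hint α4_root
  have h2 : ¬ IsUnit (minpoly ℤ α4) := (minpoly.irreducible hint).not_isUnit
  have h3 : Associated (minpoly ℤ α4) P4 :=
    ((minpoly.irreducible hint).dvd_irreducible_iff_associated P4_irreducible).1 h1
  exact eq_of_monic_of_associated (minpoly.monic hint) P4_monic h3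

theorem salem_α4 : IsSalem α4 := by
  have hb := sqrt2_bd
  have h2 := sqrt2
  have hs : (2 - √2) ^ 2 < 4 := by nlinarith
  have hint : IsIntegral ℤ α4 := ⟨P4, P4_monic, by
    have := α4_root
    rwa [aeval_def] at this⟩
  have hfac : ∀ z : ℂ, aeval z P4 =
      (z ^ 2 - ((2 + √2 : ℝ) : ℂ) * z + 1) * (z ^ 2 - ((2 - √2 : ℝ) : ℂ) * z + 1) := by
    intro z
    rw [P4_eval]
    have h3 : ((√2 : ℝ) : ℂ) ^ 2 = 2 := by
      rw [← Complex.ofReal_pow, h2]; norm_num
    push_cast
    linear_combination (z ^ 2) * h3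
  refine ⟨α4_gt, hint, ?_, ?_⟩
  · intro z hz hne
    rw [minpoly_α4, hfac] at hz
    rcases mul_eq_zero.1 hz with h | h
    · -- the other root of the first factor
      have h4 : ((α4 : ℂ)) ^ 2 - ((2 + √2 : ℝ) : ℂ) * α4 + 1 = 0 := by
        have := α4_quad
        exact_mod_cast congrArg (Complex.ofReal) this
      have h5 : (z - α4) * (z * α4 - 1) = 0 := by
        linear_combination (α4 : ℂ) * h - z * h4
      have h6 : z * α4 = 1 := by
        rcases mul_eq_zero.1 h5 with h7 | h7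
        · exact absurd (sub_eq_zero.1 h7) hne
        · exact sub_eq_zero.1 h7
      have h8 : ‖z‖ * α4 = 1 := by
        have := congrArg norm h6
        rw [norm_mul, Complex.norm_real, Real.norm_eq_abs, abs_of_pos (by linarith [α4_gt]),
          norm_one] at this
        exact this
      have h9 := α4_gt
      have h10 := norm_nonneg z
      nlinarith
    · exact (norm_of_quad hs h).le
  · obtain ⟨z, hz⟩ : ∃ z : ℂ, z ^ 2 - ((2 - √2 : ℝ) : ℂ) * z + 1 = 0 := by
      obtain ⟨r, hr⟩ := IsAlgClosed.exists_pow_nat_eq ((((2 - √2 : ℝ) : ℂ)) ^ 2 - 4)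
        (n := 2) (by norm_num)
      refine ⟨(((2 - √2 : ℝ) : ℂ) + r) / 2, ?_⟩
      linear_combination (1 / 4) * hr
    refine ⟨z, ?_, norm_of_quad hs hz⟩
    rw [minpoly_α4, hfac, hz, mul_zero]

end Pool.Agent.R329.Salem
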